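import Pool.Agent.X16.BC.B

/-!
# Combinations of polynomials in one variable
-/

set_option autoImplicit false

namespace Pool.Agent.X16.BC

open MeasureTheory Filter
open Pool.Agent.H261R2.CM

noncomputable section

attribute [local irreducible] tv

variable {r : ℕ}

theorem norm_ev1_le (A : Polynomial ℤ) (t : ℝ) :
    ‖ev1 A t‖ ≤ ((∑ j ∈ A.support, |A.coeff j| : ℤ) : ℝ) := by
  have h1 : ev1 A t = ∑ j ∈ A.support, ((A.coeff j : ℤ) : ℂ) * ez t ^ j := by
    unfold ev1 toC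
    rw [Polynomial.eval_map, Polynomial.eval₂_eq_sum, Polynomial.sum]
    rfl
  rw [h1]
  refine (norm_sum_le _ _).trans ?_
  push_cast
  refine Finset.sum_le_sum fun j _ => ?_
  rw [norm_mul, norm_pow, D_norm_ez, one_pow, mul_one, Complex.norm_intCast]

theorem norm_ev1_reverse (P : Polynomial ℤ) (t : ℝ) : ‖ev1 P.reverse t‖ = ‖ev1 P t‖ := by
  have hz : ez t ≠ 0 := by
    intro h
    have := D_norm_ez t
    rw [h, norm_zero] at this
    exact zero_ne_one this
  let _ : Invertible (ez t) := invertibleOfNonzero hz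
  have hinv : ⅟(ez t) = (starRingEnd ℂ) (ez t) := by
    rw [invOf_eq_inv]
    rw [Complex.inv_def, Complex.normSq_eq_norm_sq, D_norm_ez]
    simp
  have h1 := Polynomial.eval₂_reverse_mul_pow (Int.castRingHom ℂ) (ez t) P
  have h2 : ‖Polynomial.eval₂ (Int.castRingHom ℂ) (⅟(ez t)) P.reverse‖ = ‖ev1 P.reverse t‖ := by
    rw [hinv]
    have h3 : Polynomial.eval₂ (Int.castRingHom ℂ) ((starRingEnd ℂ) (ez t)) P.reverse =
        (starRingEnd ℂ) (Polynomial.eval₂ (Int.castRingHom ℂ) (ez t) P.reverse) := by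
      rw [Polynomial.hom_eval₂]
      congr 1
      ext
      simp
    rw [h3, RCLike.norm_conj]
    unfold ev1 toC
    rw [Polynomial.eval_map]
  have h4 := congrArg norm h1
  rw [norm_mul, norm_pow, D_norm_ez, one_pow, mul_one, h2] at h4
  rw [h4]
  unfold ev1 toC
  rw [Polynomial.eval_map]

/-- one variable combinations -/
theorem one_mem (P A : Fin r → Polynomial ℤ)
    (hP : ∀ D : Polynomial ℤ, (∀ i, D ∣ P i) → m1 D = 1) (N : ℝ)
    (hA : ((∑ i, ∑ j ∈ (A i).support, |(A i).coeff j| : ℤ) : ℝ) ≤ N)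
    (hF : ∑ i, A i * P i ≠ 0) :
    m1 (∑ i, A i * P i) ∈ LL ((∫ s in (0 : ℝ)..1,
      1 / 2 * Real.log (∑ i, ‖ev1 (P i) s‖ ^ 2)) + 1 / 2 * Real.log (1 + N ^ 2)) := by
  have hup : up (∑ i, A i * P i) = ∑ i, up (A i) * up (P i) := by
    rw [map_sum]
    refine Finset.sum_congr rfl fun i _ => ?_
    rw [map_mul]
  have h1 := lin_mem (k := 1) (fun i => up (P i)) (fun i => up (A i)) ?_ N ?_ ?_
  · rw [← hup, mM_up _ hF] at h1
    refine LL_mono (le_of_eq ?_) h1
    congr 1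
    have h2 : ∀ y : Fin 1 → ℝ, 1 / 2 * Real.log (∑ i, ‖tv (up (P i)) y‖ ^ 2) =
        (fun s : ℝ => 1 / 2 * Real.log (∑ i, ‖ev1 (P i) s‖ ^ 2)) (y 0) := by
      intro y
      simp only [tv_up]
    simp only [h2]
    exact int_up (fun s : ℝ => 1 / 2 * Real.log (∑ i, ‖ev1 (P i) s‖ ^ 2))
  · intro Q hQ
    have h2 : ∀ i, dn Q ∣ P i := by
      intro i
      have := map_dvd dn (hQ i)
      rwa [dn_up] at this
    have h3 := hP (dn Q) h2
    have h4 : dn Q ≠ 0 := by
      intro h0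
      rw [h0] at h3
      have h5 : m1 (0 : Polynomial ℤ) = 0 := by
        unfold m1 toC
        rw [Polynomial.map_zero, Polynomial.mahlerMeasure_zero]
      rw [h5] at h3
      exact zero_ne_one h3
    rw [← up_dn Q, mM_up _ h4]
    exact h3
  · intro t
    simp only [tv_up]
    refine le_trans ?_ hA
    rw [Int.cast_sum]
    exact Finset.sum_le_sum fun i _ => norm_ev1_le (A i) (t 0)
  · rw [← hup]
    exact up_ne_zero hF

/-- the gap for one variable combinations -/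
theorem one_gap (N K : ℝ) : ∃ μ : ℝ, 1 < μ ∧ ∀ (r : ℕ) (P A : Fin r → Polynomial ℤ),
    (∀ D : Polynomial ℤ, (∀ i, D ∣ P i) → m1 D = 1) →
    (∫ s in (0 : ℝ)..1, 1 / 2 * Real.log (∑ i, ‖ev1 (P i) s‖ ^ 2)) ≤ K →
    ((∑ i, ∑ j ∈ (A i).support, |(A i).coeff j| : ℤ) : ℝ) ≤ N →
    ∑ i, A i * P i ≠ 0 → m1 (∑ i, A i * P i) = 1 ∨ μ ≤ m1 (∑ i, A i * P i) := by
  obtain ⟨c, hc, h⟩ := gap_all (K + 1 / 2 * Real.log (1 + N ^ 2))
  refine ⟨c, hc, fun r P A hP hK hA hF => ?_⟩
  obtain ⟨k, _, F, G, hF', hG', hFG, hmx, hx⟩ := one_mem P A hP N hA hF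
  rw [hx]
  exact h k F G hF' hG' hFG (by linarith)

/-- the gap for combinations of a polynomial and its reversal -/
theorem reverse_gap (N B : ℝ) : ∃ μ : ℝ, 1 < μ ∧ ∀ P A C : Polynomial ℤ,
    (∀ D : Polynomial ℤ, D ∣ P → D ∣ P.reverse → m1 D = 1) → m1 P ≤ B →
    (((∑ j ∈ A.support, |A.coeff j|) + ∑ j ∈ C.support, |C.coeff j| : ℤ) : ℝ) ≤ N →
    A * P + C * P.reverse ≠ 0 →
    m1 (A * P + C * P.reverse) = 1 ∨ μ ≤ m1 (A * P + C * P.reverse) := by
  obtain ⟨μ, hμ, h⟩ := one_gap N (Real.log B + 1 / 2 * Real.log 2)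
  refine ⟨μ, hμ, fun P A C hP hB hN hF => ?_⟩
  have hP0 : P ≠ 0 := by
    rintro rfl
    apply hF
    rw [Polynomial.reverse_zero, mul_zero, mul_zero, add_zero]
  have h1 := h 2 (![P, P.reverse]) (![A, C])
    (fun D hD => hP D (by simpa using hD 0) (by simpa using hD 1)) ?_
    (by simpa [Fin.sum_univ_two] using hN) (by simpa [Fin.sum_univ_two] using hF)
  · simpa [Fin.sum_univ_two] using h1
  · have h3 : ∀ᵐ s : ℝ, 1 / 2 *
        Real.log (∑ i, ‖ev1 ((![P, P.reverse] : Fin 2 → Polynomial ℤ) i) s‖ ^ 2) =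
        Real.log ‖ev1 P s‖ + 1 / 2 * Real.log 2 := by
      filter_upwards [Pool.Agent.W242.IM.ae_eval_ne (toC P) (D_toC_ne P hP0)] with s hs
      have p1 : 0 < ‖ev1 P s‖ := norm_pos_iff.2 hs
      rw [Fin.sum_univ_two]
      simp only [Matrix.cons_val_zero, Matrix.cons_val_one]
      rw [norm_ev1_reverse, ← two_mul, Real.log_mul two_ne_zero (pow_pos p1 2).ne', Real.log_pow]
      push_cast
      ring
    have hlog : (∫ s in (0 : ℝ)..1, Real.log ‖ev1 P s‖) = Real.log (m1 P) := by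
      have h := K8.log_mahler (toC P)
      rw [intervalIntegral.integral_of_le zero_le_one, ← integral_Icc_eq_integral_Ioc]
      exact h.symm
    have hint : IntervalIntegrable (fun s => Real.log ‖ev1 P s‖) volume 0 1 :=
      D_intervalIntegrable_log P
    have h4 : (∫ s in (0 : ℝ)..1, 1 / 2 *
        Real.log (∑ i, ‖ev1 ((![P, P.reverse] : Fin 2 → Polynomial ℤ) i) s‖ ^ 2)) =
        ∫ s in (0 : ℝ)..1, (Real.log ‖ev1 P s‖ + 1 / 2 * Real.log 2) :=
      intervalIntegral.integral_congr_ae (h3.mono fun s hs _ => hs)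
    rw [h4, intervalIntegral.integral_add hint (by simp), hlog, intervalIntegral.integral_const]
    have h5 : 1 ≤ m1 P := F_one_le_m1 hP0
    have h6 : Real.log (m1 P) ≤ Real.log B := Real.log_le_log (by linarith) hB
    simp only [sub_zero, one_smul]
    linarith

end

end Pool.Agent.X16.BC
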