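import Pool.Agent.TH53.UG5
import Pool.Agent.X16.BC.C
import Pool.Agent.H261R2.CM.L2

/-!
# Growth gaps for groups whose eigenvalues have companions of bounded height
-/

set_option autoImplicit false

open Polynomial Finset Module
open scoped TensorProduct commutatorElement

namespace Pool.Agent.X16.BC

open Pool.Agent.TH53.UG Pool.Agent.W963.GE
open Pool.Agent.H261R2.CM (m1 mx1 ev1 toC gap_one)

noncomputable section

universe u

theorem lehmer_companion (K : ℝ) : ∃ μ : ℝ, 1 < μ ∧ ∀ f g : ℤ[X], f ≠ 0 → g ≠ 0 →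
    IsRelPrime f g → mx1 f g ≤ K * (1 + Real.log (m1 f)) → m1 f = 1 ∨ μ ≤ m1 f := by
  obtain ⟨c, hc, h⟩ := gap_one (max K 0 * (1 + Real.log 2))
  refine ⟨min c 2, lt_min hc one_lt_two, fun f g hf hg hfg hK => ?_⟩
  have h1 : 1 ≤ m1 f := Pool.Agent.H261R2.CM.F_one_le_m1 hf
  by_cases h2 : m1 f < 2
  · have h4 : Real.log (m1 f) ≤ Real.log 2 := Real.log_le_log (by linarith) h2.le
    have h5 : 0 ≤ Real.log (m1 f) := Real.log_nonneg h1
    have h6 : mx1 f g ≤ max K 0 * (1 + Real.log 2) := by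
      refine hK.trans ?_
      calc K * (1 + Real.log (m1 f)) ≤ max K 0 * (1 + Real.log (m1 f)) :=
            mul_le_mul_of_nonneg_right (le_max_left _ _) (by linarith)
        _ ≤ max K 0 * (1 + Real.log 2) :=
            mul_le_mul_of_nonneg_left (by linarith) (le_max_right _ _)
    rcases h f g hf hg hfg h6 with h3 | h3
    · exact Or.inl h3
    · exact Or.inr ((min_le_left _ _).trans h3)
  · exact Or.inr ((min_le_right _ _).trans (not_lt.1 h2))

/-- the minimal polynomial of `z` has a companion -/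
def HasComp (K : ℝ) (z : ℂ) : Prop :=
  ∃ g : ℤ[X], g ≠ 0 ∧ IsRelPrime (minpoly ℤ z) g ∧
    mx1 (minpoly ℤ z) g ≤ K * (1 + Real.log (m1 (minpoly ℤ z)))

/-- **The growth gap.** -/
theorem gap_comp (K : ℝ) : ∃ c : ℝ, 0 < c ∧ ∀ (k d : ℕ), 1 ≤ k → ∀ (G : Type u) [Group G]
    (S : Set G), S.Finite → Subgroup.closure S = ⊤ → ∀ H : Subgroup G, H.index ≠ 0 →
    H.index ≤ d →
    (Group.IsNilpotent (gam H k) ∨ ¬ Group.IsVirtuallyNilpotent (H ⧸ ⁅gam H k, gam H k⁆)) →
    (∀ (t : H) (z : ℂ), Module.End.HasEigenvalue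
      (LinearMap.baseChange ℂ (Pool.Agent.TH53.UG.act (gam H k) t) :
        Module.End ℂ (ℂ ⊗[ℤ] (Additive (Abelianization (gam H k))))) z →
      (z ≠ 0 ∧ IsIntegral ℤ z ∧ IsIntegral ℤ z⁻¹ ∧ ∀ m : ℕ, 0 < m → z ^ m ≠ 1) →
      HasComp K z) →
    Group.IsVirtuallyNilpotent G ∨ c / (2 ^ (k + 1) * (2 * d - 1)) ≤ H746UG.rho S := by
  obtain ⟨μ, hμ, h⟩ := lehmer_companion K
  have hb := one_lt_base hμ
  refine ⟨Real.log (base μ), Real.log_pos hb, ?_⟩
  intro k d hk G _ S hfin hgen H hH0 hHd hnil hcomp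
  have hc : Real.log (base μ) ≤ Real.log 2 :=
    Real.log_le_log (by linarith) (base_lt_two μ).le
  refine gap_general hk S hfin hgen H hH0 hHd hnil hc ?_
  intro hMf t b x hx0 hx hp
  have hxi : IsIntegral ℤ x := integral_of_root _ b hp
  by_cases hi : IsIntegral ℤ x⁻¹
  · have heig := eig_of_root (Pool.Agent.TH53.UG.act (gam H k) t) b hp (minpoly.aeval ℤ x)
    obtain ⟨g, hg, hrel, hK⟩ := hcomp t x heig ⟨hx0, hxi, hi, hx⟩
    have h1 := MM_gt x hxi hx0 hx
    have h2 : μ ≤ MM x := by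
      rcases h (minpoly ℤ x) g (minpoly.monic hxi).ne_zero hg hrel hK with h3 | h3
      · exact absurd h3 h1.ne'
      · exact h3
    refine le_trans ?_ (eta_ge x hx0 hxi)
    exact Real.log_le_log (by linarith) (base_mono hμ.le h2)
  · rw [H746UG.eta_eq_log_two x hx0 (fun h => hi h.2)]
    exact hc

/-- nonreciprocal units -/
theorem comp_nonrec (z : ℂ) (h0 : z ≠ 0) (hz : IsIntegral ℤ z)
    (hne : aeval z⁻¹ (minpoly ℤ z) ≠ 0) : HasComp 1 z := by
  set f := minpoly ℤ z with hf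
  have hirr : Irreducible f := minpoly.irreducible hz
  refine ⟨f.reverse, ?_, ?_, ?_⟩
  · intro h
    rw [Polynomial.reverse_eq_zero] at h
    exact hirr.ne_zero h
  · rw [hirr.isRelPrime_iff_not_dvd]
    intro hd
    apply hne
    have h1 : aeval z f.reverse = 0 := by
      obtain ⟨q, hq⟩ := hd
      rw [hq, map_mul, hf, minpoly.aeval, zero_mul]
    let _ : Invertible z⁻¹ := invertibleOfNonzero (inv_ne_zero h0)
    have h2 := Polynomial.eval₂_reverse_mul_pow (Int.castRingHom ℂ) z⁻¹ f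
    have h3 : ⅟(z⁻¹) = z := by rw [invOf_eq_inv, inv_inv]
    rw [h3] at h2
    have h4 : eval₂ (Int.castRingHom ℂ) z f.reverse = 0 := by
      rw [← h1, Polynomial.aeval_def]
      rfl
    rw [h4, zero_mul] at h2
    rw [Polynomial.aeval_def]
    exact h2.symm
  · have h5 : mx1 f f.reverse = Real.log (m1 f) := by
      unfold mx1
      simp only [norm_ev1_reverse, max_self]
      exact (Pool.Agent.H261R2.CM.D_log_m1 f).symm
    rw [h5]
    linarith

/-- bounded `∫ log⁺ |f|` -/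
theorem comp_logplus (K : ℝ) (z : ℂ) (hz : IsIntegral ℤ z)
    (h : ∫ t in (0 : ℝ)..1, Real.log (max ‖ev1 (minpoly ℤ z) t‖ 1) ≤ K) : HasComp K z := by
  have hf0 : minpoly ℤ z ≠ 0 := (minpoly.monic hz).ne_zero
  refine ⟨1, one_ne_zero, isRelPrime_one_right, ?_⟩
  have h1 : mx1 (minpoly ℤ z) 1 = ∫ t in (0 : ℝ)..1, Real.log (max ‖ev1 (minpoly ℤ z) t‖ 1) := by
    unfold mx1
    refine intervalIntegral.integral_congr fun t _ => ?_
    simp only [Pool.Agent.H261R2.CM.ev1_one, norm_one]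
  have h2 : 0 ≤ ∫ t in (0 : ℝ)..1, Real.log (max ‖ev1 (minpoly ℤ z) t‖ 1) :=
    intervalIntegral.integral_nonneg zero_le_one fun t _ => Real.log_nonneg (le_max_right _ _)
  have h3 : 0 ≤ Real.log (m1 (minpoly ℤ z)) :=
    Real.log_nonneg (Pool.Agent.H261R2.CM.F_one_le_m1 hf0)
  rw [h1]
  nlinarith

end

end Pool.Agent.X16.BC
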