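import Pool.Agent.TH845.KN.B2

/-!
# Companions from families of polynomials
-/

set_option autoImplicit false

namespace Pool.Agent.X16.BC

open MeasureTheory Filter
open Pool.Agent.H261R2.CM

noncomputable section

attribute [local irreducible] tv

variable {k r : ℕ}

/-- the family as one polynomial in a new variable -/
def fam (G : Fin r → MvPolynomial (Fin k) ℤ) : MvPolynomial (Fin (k + 1)) ℤ :=
  ∑ i : Fin r, MvPolynomial.rename Fin.succ (G i) * MvPolynomial.X 0 ^ (i : ℕ)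

theorem fse_rename (A : MvPolynomial (Fin k) ℤ) :
    MvPolynomial.finSuccEquiv ℤ k (MvPolynomial.rename Fin.succ A) = Polynomial.C A := by
  induction A using MvPolynomial.induction_on with
  | C a =>
    rw [MvPolynomial.rename_C, MvPolynomial.finSuccEquiv_apply, MvPolynomial.eval₂Hom_C]
    rfl
  | add p q hp hq => rw [map_add, map_add, hp, hq, Polynomial.C_add]
  | mul_X p i hp =>
    rw [map_mul, map_mul, hp, MvPolynomial.rename_X, MvPolynomial.finSuccEquiv_X_succ,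
      Polynomial.C_mul]

theorem coeff_fam (G : Fin r → MvPolynomial (Fin k) ℤ) (i : Fin r) :
    (MvPolynomial.finSuccEquiv ℤ k (fam G)).coeff (i : ℕ) = G i := by
  unfold fam
  rw [map_sum]
  simp only [map_mul, map_pow, fse_rename, MvPolynomial.finSuccEquiv_X_zero]
  rw [Polynomial.finset_sum_coeff]
  simp only [Polynomial.coeff_C_mul, Polynomial.coeff_X_pow]
  rw [Finset.sum_eq_single i]
  · simp
  · intro j _ hj
    have : ¬ ((i : ℕ) = (j : ℕ)) := fun h => hj (Fin.ext h.symm)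
    simp [this]
  · simp

theorem dvd_of_dvd_fam {π : MvPolynomial (Fin k) ℤ} (G : Fin r → MvPolynomial (Fin k) ℤ)
    (h : MvPolynomial.rename Fin.succ π ∣ fam G) (i : Fin r) : π ∣ G i := by
  have h1 := map_dvd (MvPolynomial.finSuccEquiv ℤ k) h
  rw [fse_rename, Polynomial.C_dvd_iff_dvd_coeff] at h1
  have h2 := h1 i
  rwa [coeff_fam] at h2

theorem fam_ne_zero {G : Fin r → MvPolynomial (Fin k) ℤ} (hG : ∃ i, G i ≠ 0) : fam G ≠ 0 := by
  obtain ⟨i, hi⟩ := hG
  intro h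
  apply hi
  rw [← coeff_fam G i, h, map_zero, Polynomial.coeff_zero]

theorem fam_relPrime {F : MvPolynomial (Fin k) ℤ} (hF : F ≠ 0)
    (G : Fin r → MvPolynomial (Fin k) ℤ)
    (hrel : ∀ Q, Q ∣ F → (∀ i, Q ∣ G i) → IsUnit Q) :
    IsRelPrime (MvPolynomial.rename Fin.succ F) (fam G) := by
  intro π h1 h2
  obtain ⟨π₀, rfl⟩ := J.exists_rename
    (J.degreeOf_zero_of_dvd (J.rename_ne_zero hF) h1 0 (J.degreeOf_zero_rename F))
  have h3 := map_dvd J.retr h1
  rw [J.retr_rename, J.retr_rename] at h3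
  exact (hrel π₀ h3 (dvd_of_dvd_fam G h2)).map (MvPolynomial.rename Fin.succ)

theorem tv_fam (G : Fin r → MvPolynomial (Fin k) ℤ) (t : Fin (k + 1) → ℝ) :
    tv (fam G) t = ∑ i : Fin r, tv (G i) (fun j => t j.succ) * ez (t 0) ^ (i : ℕ) := by
  rw [J.tv_eq]
  unfold fam
  rw [map_sum]
  refine Finset.sum_congr rfl fun i _ => ?_
  rw [map_mul, map_pow, ← J.tv_eq, ← J.tv_eq, J.tv_rename, J.tv_X]
  rfl

theorem sum_sq (g : Fin r → ℂ) :
    ∫ w in Set.Icc (0 : ℝ) 1, ‖∑ i : Fin r, g i * ez w ^ (i : ℕ)‖ ^ 2 = ∑ i, ‖g i‖ ^ 2 := by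
  set p : Polynomial ℂ := ∑ i : Fin r, Polynomial.C (g i) * Polynomial.X ^ (i : ℕ) with hp
  have hev : ∀ w : ℝ, p.eval (ez w) = ∑ i : Fin r, g i * ez w ^ (i : ℕ) := by
    intro w
    rw [hp, Polynomial.eval_finset_sum]
    simp
  have hco : ∀ n : ℕ, p.coeff n = if h : n < r then g ⟨n, h⟩ else 0 := by
    intro n
    rw [hp, Polynomial.finset_sum_coeff]
    simp only [Polynomial.coeff_C_mul, Polynomial.coeff_X_pow]
    split_ifs with h
    · rw [Finset.sum_eq_single ⟨n, h⟩]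
      · simp
      · intro j _ hj
        have : ¬ (n = (j : ℕ)) := fun h' => hj (Fin.ext h'.symm)
        simp [this]
      · simp
    · refine Finset.sum_eq_zero fun j _ => ?_
      have : ¬ (n = (j : ℕ)) := fun h' => h (h' ▸ j.2)
      simp [this]
  have h1 := parseval p
  rw [intervalIntegral.integral_of_le zero_le_one, ← integral_Icc_eq_integral_Ioc] at h1
  simp only [hev] at h1
  rw [← h1]
  have h2 : p.support ⊆ Finset.range r := by
    intro n hn
    rw [Polynomial.mem_support_iff, hco] at hn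
    rw [Finset.mem_range]
    by_contra hc
    rw [dif_neg hc] at hn
    exact hn rfl
  rw [Finset.sum_subset h2 fun n _ hn => by
    rw [Polynomial.notMem_support_iff.1 hn, norm_zero]; simp]
  rw [Finset.sum_range]
  refine Finset.sum_congr rfl fun i _ => ?_
  rw [hco, dif_pos i.2]

theorem avg_le (a : ℝ) (ha : 0 < a) (g : Fin r → ℂ) :
    ∫ w in Set.Icc (0 : ℝ) 1, Real.log (max a ‖∑ i : Fin r, g i * ez w ^ (i : ℕ)‖) ≤
      1 / 2 * Real.log (a ^ 2 + ∑ i, ‖g i‖ ^ 2) := by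
  set c := a ^ 2 + ∑ i, ‖g i‖ ^ 2 with hc
  have hc0 : 0 < c := by positivity
  have hcont : Continuous fun w : ℝ => ∑ i : Fin r, g i * ez w ^ (i : ℕ) := by
    have := D_continuous_ez
    fun_prop
  have h1 : ∀ w : ℝ, Real.log (max a ‖∑ i : Fin r, g i * ez w ^ (i : ℕ)‖) ≤
      1 / 2 * (Real.log c - 1 + a ^ 2 / c) +
        (1 / 2 / c) * ‖∑ i : Fin r, g i * ez w ^ (i : ℕ)‖ ^ 2 := by
    intro w
    set b := ‖∑ i : Fin r, g i * ez w ^ (i : ℕ)‖ with hb
    have hb0 : 0 ≤ b := norm_nonneg _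
    have hm : 0 < max a b := lt_max_of_lt_left ha
    have h2 : (max a b) ^ 2 ≤ a ^ 2 + b ^ 2 := by
      rcases max_cases a b with h | h
      · rw [h.1]; nlinarith
      · rw [h.1]; nlinarith
    have hab : 0 < a ^ 2 + b ^ 2 := by positivity
    have h3 := Real.log_le_sub_one_of_pos (div_pos hab hc0)
    rw [Real.log_div hab.ne' hc0.ne'] at h3
    have h4 : Real.log ((max a b) ^ 2) = 2 * Real.log (max a b) := by
      rw [Real.log_pow]; norm_num
    have h5 : Real.log ((max a b) ^ 2) ≤ Real.log (a ^ 2 + b ^ 2) :=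
      Real.log_le_log (by positivity) h2
    have h6 : (a ^ 2 + b ^ 2) / c = a ^ 2 / c + b ^ 2 / c := add_div _ _ _
    have h7 : (1 / 2 / c) * b ^ 2 = 1 / 2 * (b ^ 2 / c) := by ring
    rw [h7]
    linarith
  have i1 : IntegrableOn (fun w : ℝ => Real.log (max a ‖∑ i : Fin r, g i * ez w ^ (i : ℕ)‖))
      (Set.Icc (0 : ℝ) 1) := by
    refine ContinuousOn.integrableOn_Icc (Continuous.continuousOn ?_)
    exact Continuous.log (by fun_prop) fun w => (lt_max_of_lt_left ha).ne'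
  have i2 : IntegrableOn (fun w : ℝ => ‖∑ i : Fin r, g i * ez w ^ (i : ℕ)‖ ^ 2)
      (Set.Icc (0 : ℝ) 1) :=
    ContinuousOn.integrableOn_Icc (Continuous.continuousOn (by fun_prop))
  have i3 : IntegrableOn (fun _ : ℝ => 1 / 2 * (Real.log c - 1 + a ^ 2 / c))
      (Set.Icc (0 : ℝ) 1) := integrable_const _
  refine (setIntegral_mono i1 (i3.add (i2.const_mul (1 / 2 / c))) h1).trans (le_of_eq ?_)
  have h8 : ∫ w in Set.Icc (0 : ℝ) 1, (1 / 2 * (Real.log c - 1 + a ^ 2 / c) +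
      (1 / 2 / c) * ‖∑ i : Fin r, g i * ez w ^ (i : ℕ)‖ ^ 2) =
      (∫ _ in Set.Icc (0 : ℝ) 1, (1 / 2 * (Real.log c - 1 + a ^ 2 / c))) +
      ∫ w in Set.Icc (0 : ℝ) 1, (1 / 2 / c) * ‖∑ i : Fin r, g i * ez w ^ (i : ℕ)‖ ^ 2 :=
    integral_add i3 (i2.const_mul (1 / 2 / c))
  refine h8.trans ?_
  have h11 : ∫ w in Set.Icc (0 : ℝ) 1, (1 / 2 / c) * ‖∑ i : Fin r, g i * ez w ^ (i : ℕ)‖ ^ 2 =
      (1 / 2 / c) * ∑ i, ‖g i‖ ^ 2 := by
    rw [integral_const_mul, sum_sq]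
  rw [h11, setIntegral_const, measureReal_def, Real.volume_Icc]
  have h9 : a ^ 2 / c + (∑ i, ‖g i‖ ^ 2) / c = 1 := by
    rw [← add_div, ← hc, div_self hc0.ne']
  have h10 : 1 / 2 / c * ∑ i, ‖g i‖ ^ 2 = 1 / 2 * ((∑ i, ‖g i‖ ^ 2) / c) := by ring
  rw [h10]
  simp only [sub_zero, ENNReal.toReal_ofReal zero_le_one, smul_eq_mul, one_mul]
  linarith

/-- `½ log (|F|² + ∑ |G_i|²)` -/
def hgt (F : MvPolynomial (Fin k) ℤ) (G : Fin r → MvPolynomial (Fin k) ℤ) (y : Fin k → ℝ) : ℝ :=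
  1 / 2 * Real.log (‖tv F y‖ ^ 2 + ∑ i, ‖tv (G i) y‖ ^ 2)

theorem hgt_measurable (F : MvPolynomial (Fin k) ℤ) (G : Fin r → MvPolynomial (Fin k) ℤ) :
    Measurable (hgt F G) := by
  unfold hgt
  refine Measurable.const_mul (Real.measurable_log.comp ?_) _
  exact (((F_continuous_tv F).norm.pow 2).add
    (continuous_finset_sum _ fun i _ => (F_continuous_tv (G i)).norm.pow 2)).measurable

theorem hgt_integrable {F : MvPolynomial (Fin k) ℤ} (hF : F ≠ 0)
    (G : Fin r → MvPolynomial (Fin k) ℤ) :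
    IntegrableOn (hgt F G) (Set.Icc (0 : Fin k → ℝ) 1) := by
  obtain ⟨K0, hK0, h0⟩ := F_bound F
  choose K hK0' hK using fun i => F_bound (G i)
  set M : ℝ := 1 + K0 ^ 2 + ∑ i, K i ^ 2 with hM
  have hMs : 0 ≤ ∑ i, K i ^ 2 := Finset.sum_nonneg fun _ _ => sq_nonneg _
  have hM1 : 1 ≤ M := by nlinarith [sq_nonneg K0]
  refine Integrable.mono' ((F_integrable hF).abs.add (integrable_const (Real.log M)))
    (hgt_measurable F G).aestronglyMeasurable ?_
  filter_upwards [F_zero_null hF] with t ht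
  have p1 : 0 < ‖tv F t‖ := norm_pos_iff.2 ht
  have hs : 0 ≤ ∑ i, ‖tv (G i) t‖ ^ 2 := Finset.sum_nonneg fun _ _ => sq_nonneg _
  have p2 : 0 < ‖tv F t‖ ^ 2 := pow_pos p1 2
  have q1 : Real.log (‖tv F t‖ ^ 2) ≤ Real.log (‖tv F t‖ ^ 2 + ∑ i, ‖tv (G i) t‖ ^ 2) :=
    Real.log_le_log p2 (by linarith)
  have q2 : Real.log (‖tv F t‖ ^ 2 + ∑ i, ‖tv (G i) t‖ ^ 2) ≤ Real.log M := by
    refine Real.log_le_log (by linarith) ?_
    have e1 : ‖tv F t‖ ^ 2 ≤ K0 ^ 2 := pow_le_pow_left₀ (norm_nonneg _) (h0 t) 2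
    have e2 : ∑ i, ‖tv (G i) t‖ ^ 2 ≤ ∑ i, K i ^ 2 :=
      Finset.sum_le_sum fun i _ => pow_le_pow_left₀ (norm_nonneg _) (hK i t) 2
    linarith
  have q3 : Real.log (‖tv F t‖ ^ 2) = 2 * Real.log ‖tv F t‖ := by
    rw [Real.log_pow]; norm_num
  have q4 : 0 ≤ Real.log M := Real.log_nonneg hM1
  have h8 := neg_abs_le (Real.log ‖tv F t‖)
  have h9 := abs_nonneg (Real.log ‖tv F t‖)
  unfold hgt
  rw [Real.norm_eq_abs, abs_le]
  simp only [Pi.add_apply]
  constructor <;> linarith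

/-- **A polynomial and a family without common divisor.** -/
theorem fam_mem {F : MvPolynomial (Fin k) ℤ} (hF : F ≠ 0) (G : Fin r → MvPolynomial (Fin k) ℤ)
    (hG : ∃ i, G i ≠ 0) (hrel : ∀ Q, Q ∣ F → (∀ i, Q ∣ G i) → IsUnit Q) (K : ℝ)
    (hK : ∫ y in Set.Icc (0 : Fin k → ℝ) 1, hgt F G y ≤ K) : mM F ∈ LL K := by
  have hF' := J.rename_ne_zero hF
  refine ⟨k + 1, by omega, MvPolynomial.rename Fin.succ F, fam G, hF', fam_ne_zero hG,
    fam_relPrime hF G hrel, ?_, (J.mM_rename F).symm⟩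
  refine le_trans ?_ hK
  set g : (Fin (k + 1) → ℝ) → ℝ := fun t =>
    Real.log (max ‖tv (MvPolynomial.rename Fin.succ F) t‖ ‖tv (fam G) t‖) with hg
  have hgi : IntegrableOn g (Set.Icc 0 1) := Pool.Agent.TH845.KN.integrable_logmax' hF' (fam G)
  obtain ⟨h1, h2⟩ := K8.cube_slice 0 g hgi
  have h3 : mx (MvPolynomial.rename Fin.succ F) (fam G) =
      ∫ t in Set.Icc (0 : Fin (k + 1) → ℝ) 1, g t := rfl
  have h4 := K8.integrable_tail 0 (hgt F G) (hgt_integrable hF G)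
  rw [h3, ← h2, ← K8.integral_tail 0 (hgt F G)]
  refine integral_mono_ae h1 h4 ?_
  filter_upwards [F_zero_null hF'] with x hx
  rw [J.tv_rename] at hx
  have h5 : ∀ w : ℝ, g (Function.update x 0 w) =
      Real.log (max ‖tv F (fun j => x j.succ)‖
        ‖∑ i : Fin r, tv (G i) (fun j => x j.succ) * ez w ^ (i : ℕ)‖) := by
    intro w
    have e1 : (fun j : Fin k => Function.update x 0 w j.succ) = fun j => x j.succ := by
      funext j
      rw [Function.update_of_ne (Fin.succ_ne_zero j)]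
    simp only [hg]
    rw [J.tv_rename, tv_fam, e1, Function.update_self]
  simp only [h5]
  exact avg_le _ (norm_pos_iff.2 hx) _

theorem mM_unit {u : MvPolynomial (Fin k) ℤ} (hu : IsUnit u) : mM u = 1 :=
  J.mM_of_norm_const one_pos (J.norm_tv_isUnit hu)

theorem mM_one_of_irr (D : MvPolynomial (Fin k) ℤ) (hD : D ≠ 0)
    (h : ∀ Q, Irreducible Q → Q ∣ D → mM Q = 1) : mM D = 1 := by
  revert hD h
  refine UniqueFactorizationMonoid.induction_on_prime D ?_ ?_ ?_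
  · intro h
    exact absurd rfl h
  · intro x hx _ _
    exact mM_unit hx
  · intro a p ha hp ih _ h
    rw [mM_mul p a hp.ne_zero ha, h p hp.irreducible (dvd_mul_right _ _),
      ih ha fun Q hQ hd => h Q hQ (hd.mul_left p), one_mul]

theorem exists_gcd {R ι : Type*} [CommRing R] [IsDomain R] [UniqueFactorizationMonoid R]
    [Fintype ι] [Nonempty ι] (f : ι → R) :
    ∃ (D : R) (g : ι → R), (∀ i, f i = D * g i) ∧ ∀ Q, (∀ i, Q ∣ g i) → IsUnit Q := by
  classical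
  let _ := UniqueFactorizationMonoid.strongNormalizationMonoid (α := R)
  let _ := UniqueFactorizationMonoid.toNormalizedGCDMonoid R
  obtain ⟨g, hg, hg1⟩ := Finset.extract_gcd (s := Finset.univ) f Finset.univ_nonempty
  refine ⟨_, g, fun i => hg i (Finset.mem_univ i), fun Q hQ => ?_⟩
  have h3 : Q ∣ Finset.univ.gcd g := Finset.dvd_gcd fun o _ => hQ o
  rw [hg1] at h3
  exact isUnit_of_dvd_one h3

/-- **A polynomial and a family without common divisor of measure greater than `1`.** -/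
theorem fam_mem' {F : MvPolynomial (Fin k) ℤ} (hF : F ≠ 0) (G : Fin r → MvPolynomial (Fin k) ℤ)
    (hQ : ∀ Q, Irreducible Q → Q ∣ F → (∀ i, Q ∣ G i) → mM Q = 1) (K : ℝ)
    (hK : ∫ y in Set.Icc (0 : Fin k → ℝ) 1, hgt F G y ≤ K) : mM F ∈ LL K := by
  obtain ⟨D, g, hg, hg1⟩ := exists_gcd (fun o : Option (Fin r) => o.elim F G)
  have e0 : F = D * g none := hg none
  have e1 : ∀ i, G i = D * g (some i) := fun i => hg (some i)
  have hD0 : D ≠ 0 := by
    intro h0
    rw [h0, zero_mul] at e0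
    exact hF e0
  have hg0 : g none ≠ 0 := by
    intro h0
    rw [h0, mul_zero] at e0
    exact hF e0
  have hDM : mM D = 1 := by
    refine mM_one_of_irr D hD0 fun Q hQi hQD => hQ Q hQi ?_ fun i => ?_
    · rw [e0]; exact hQD.mul_right _
    · rw [e1]; exact hQD.mul_right _
  have hM : mM F = mM (g none) := by
    rw [e0, mM_mul D _ hD0 hg0, hDM, one_mul]
  have hone : 1 ≤ mM F := one_le_mM F hF
  have hDint : ∫ y in Set.Icc (0 : Fin k → ℝ) 1, Real.log ‖tv D y‖ = 0 := by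
    have h1 : Real.log (mM D) = ∫ y in Set.Icc (0 : Fin k → ℝ) 1, Real.log ‖tv D y‖ := by
      unfold mM; rw [Real.log_exp]
    rw [← h1, hDM, Real.log_one]
  by_cases hG : ∃ i, g (some i) ≠ 0
  · rw [hM]
    refine fam_mem hg0 (fun i => g (some i)) hG ?_ _ (le_trans (le_of_eq ?_) hK)
    · intro Q h1 h2
      refine hg1 Q fun o => ?_
      cases o with
      | none => exact h1
      | some i => exact h2 i
    · have h1 : ∫ y in Set.Icc (0 : Fin k → ℝ) 1, hgt F G y =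
          ∫ y in Set.Icc (0 : Fin k → ℝ) 1,
            (Real.log ‖tv D y‖ + hgt (g none) (fun i => g (some i)) y) := by
        refine integral_congr_ae ?_
        filter_upwards [F_zero_null hg0, F_zero_null hD0] with y hy hDy
        have p1 : 0 < ‖tv (g none) y‖ := norm_pos_iff.2 hy
        have p2 : 0 < ‖tv D y‖ := norm_pos_iff.2 hDy
        have h3 : ∑ i, ‖tv (G i) y‖ ^ 2 = ‖tv D y‖ ^ 2 * ∑ i, ‖tv (g (some i)) y‖ ^ 2 := by
          rw [Finset.mul_sum]
          refine Finset.sum_congr rfl fun i _ => ?_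
          rw [e1 i, J.norm_tv_mul, mul_pow]
        have h4 : ‖tv F y‖ = ‖tv D y‖ * ‖tv (g none) y‖ := by
          conv_lhs => rw [e0]
          rw [J.norm_tv_mul]
        show hgt F G y = Real.log ‖tv D y‖ + hgt (g none) (fun i => g (some i)) y
        unfold hgt
        have hs : 0 ≤ ∑ i, ‖tv (g (some i)) y‖ ^ 2 := Finset.sum_nonneg fun _ _ => sq_nonneg _
        rw [h3, h4, mul_pow, ← mul_add, Real.log_mul (pow_pos p2 2).ne'
          (add_pos_of_pos_of_nonneg (pow_pos p1 2) hs).ne', Real.log_pow]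
        push_cast
        ring
      have h2 : ∫ y in Set.Icc (0 : Fin k → ℝ) 1,
            (Real.log ‖tv D y‖ + hgt (g none) (fun i => g (some i)) y) =
          (∫ y in Set.Icc (0 : Fin k → ℝ) 1, Real.log ‖tv D y‖) +
            ∫ y in Set.Icc (0 : Fin k → ℝ) 1, hgt (g none) (fun i => g (some i)) y :=
        integral_add (F_integrable hD0) (hgt_integrable hg0 _)
      rw [h1, h2, hDint, zero_add]
  · push Not at hG
    have h1 : IsUnit (g none) := by
      refine hg1 _ fun o => ?_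
      cases o with
      | none => exact dvd_rfl
      | some i => rw [hG i]; exact dvd_zero _
    have h2 : Real.log (mM F) ≤ ∫ y in Set.Icc (0 : Fin k → ℝ) 1, hgt F G y := by
      have h3 : Real.log (mM F) = ∫ y in Set.Icc (0 : Fin k → ℝ) 1, Real.log ‖tv F y‖ := by
        unfold mM; rw [Real.log_exp]
      rw [h3]
      refine integral_mono_ae (F_integrable hF) (hgt_integrable hF G) ?_
      filter_upwards [F_zero_null hF] with t ht
      have p1 : 0 < ‖tv F t‖ := norm_pos_iff.2 ht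
      have hs : 0 ≤ ∑ i, ‖tv (G i) t‖ ^ 2 := Finset.sum_nonneg fun _ _ => sq_nonneg _
      have q1 : Real.log (‖tv F t‖ ^ 2) ≤ Real.log (‖tv F t‖ ^ 2 + ∑ i, ‖tv (G i) t‖ ^ 2) :=
        Real.log_le_log (pow_pos p1 2) (by linarith)
      rw [Real.log_pow] at q1
      show Real.log ‖tv F t‖ ≤ hgt F G t
      unfold hgt
      push_cast at q1
      linarith
    have h4 := Real.log_nonneg hone
    rw [hM, mM_unit h1]
    exact LL_mono (by linarith) Pool.Agent.TH845.KN.one_mem_LL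

/-- **Polynomials dominating a family.** -/
theorem dom_mem {F : MvPolynomial (Fin k) ℤ} (hF : F ≠ 0) (G : Fin r → MvPolynomial (Fin k) ℤ)
    (c : ℝ) (hc : 0 ≤ c) (h : ∀ t, ∑ i, ‖tv (G i) t‖ ^ 2 ≤ c * ‖tv F t‖ ^ 2)
    (hQ : ∀ Q, Irreducible Q → Q ∣ F → (∀ i, Q ∣ G i) → mM Q = 1) :
    mM F ∈ LL (Real.log (mM F) + 1 / 2 * Real.log (1 + c)) := by
  refine fam_mem' hF G hQ _ ?_
  have h1 : ∫ y in Set.Icc (0 : Fin k → ℝ) 1, hgt F G y ≤
      ∫ y in Set.Icc (0 : Fin k → ℝ) 1, (Real.log ‖tv F y‖ + 1 / 2 * Real.log (1 + c)) := by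
    refine integral_mono_ae (hgt_integrable hF _) ((F_integrable hF).add (integrable_const _)) ?_
    filter_upwards [F_zero_null hF] with y hy
    have p1 : 0 < ‖tv F y‖ := norm_pos_iff.2 hy
    have hs : 0 ≤ ∑ i, ‖tv (G i) y‖ ^ 2 := Finset.sum_nonneg fun _ _ => sq_nonneg _
    show hgt F G y ≤ _
    unfold hgt
    have h7 : Real.log (‖tv F y‖ ^ 2 + ∑ i, ‖tv (G i) y‖ ^ 2) ≤
        Real.log ((1 + c) * ‖tv F y‖ ^ 2) := by
      refine Real.log_le_log (add_pos_of_pos_of_nonneg (pow_pos p1 2) hs) ?_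
      have := h y
      linarith
    rw [Real.log_mul (by linarith) (pow_pos p1 2).ne', Real.log_pow] at h7
    push_cast at h7
    linarith
  refine h1.trans (le_of_eq ?_)
  have h2 : ∫ y in Set.Icc (0 : Fin k → ℝ) 1, (Real.log ‖tv F y‖ + 1 / 2 * Real.log (1 + c)) =
      (∫ y in Set.Icc (0 : Fin k → ℝ) 1, Real.log ‖tv F y‖) +
        ∫ _ in Set.Icc (0 : Fin k → ℝ) 1, 1 / 2 * Real.log (1 + c) :=
    integral_add (F_integrable hF) (integrable_const _)
  rw [h2, setIntegral_const, J.vol_cube, one_smul]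
  unfold mM
  rw [Real.log_exp]

/-- **Combinations of a family without common divisor of measure greater than `1`.** -/
theorem lin_mem (P A : Fin r → MvPolynomial (Fin k) ℤ)
    (hP : ∀ Q, (∀ i, Q ∣ P i) → mM Q = 1) (N : ℝ)
    (hA : ∀ t, ∑ i, ‖tv (A i) t‖ ≤ N) (hF : ∑ i, A i * P i ≠ 0) :
    mM (∑ i, A i * P i) ∈ LL ((∫ y in Set.Icc (0 : Fin k → ℝ) 1,
      1 / 2 * Real.log (∑ i, ‖tv (P i) y‖ ^ 2)) + 1 / 2 * Real.log (1 + N ^ 2)) := by
  set F := ∑ i, A i * P i with hFd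
  obtain ⟨i0, hi0⟩ : ∃ i, P i ≠ 0 := by
    by_contra hc
    push Not at hc
    apply hF
    rw [hFd]
    exact Finset.sum_eq_zero fun i _ => by rw [hc i, mul_zero]
  have hbound : ∀ y, ‖tv F y‖ ^ 2 ≤ N ^ 2 * ∑ i, ‖tv (P i) y‖ ^ 2 := by
    intro y
    have hS : 0 ≤ ∑ i, ‖tv (P i) y‖ ^ 2 := Finset.sum_nonneg fun _ _ => sq_nonneg _
    set s := Real.sqrt (∑ i, ‖tv (P i) y‖ ^ 2) with hs
    have hs0 : 0 ≤ s := Real.sqrt_nonneg _
    have h1 : ∀ i, ‖tv (P i) y‖ ≤ s := by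
      intro i
      refine Real.le_sqrt_of_sq_le ?_
      exact Finset.single_le_sum (f := fun i => ‖tv (P i) y‖ ^ 2) (fun _ _ => sq_nonneg _)
        (Finset.mem_univ i)
    have h2 : tv F y = ∑ i, tv (A i) y * tv (P i) y := by
      rw [hFd, J.tv_eq, map_sum]
      refine Finset.sum_congr rfl fun i _ => ?_
      rw [map_mul, ← J.tv_eq, ← J.tv_eq]
    have h3 : ‖tv F y‖ ≤ N * s := by
      rw [h2]
      refine (norm_sum_le _ _).trans ?_
      calc ∑ i, ‖tv (A i) y * tv (P i) y‖ ≤ ∑ i, ‖tv (A i) y‖ * s := by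
            refine Finset.sum_le_sum fun i _ => ?_
            rw [norm_mul]
            exact mul_le_mul_of_nonneg_left (h1 i) (norm_nonneg _)
        _ = (∑ i, ‖tv (A i) y‖) * s := by rw [Finset.sum_mul]
        _ ≤ N * s := mul_le_mul_of_nonneg_right (hA y) hs0
    calc ‖tv F y‖ ^ 2 ≤ (N * s) ^ 2 := pow_le_pow_left₀ (norm_nonneg _) h3 2
      _ = N ^ 2 * s ^ 2 := by ring
      _ = _ := by rw [hs, Real.sq_sqrt hS]
  refine fam_mem' hF P (fun Q _ _ hd => hP Q hd) _ ?_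
  have hPi : IntegrableOn (fun y : Fin k → ℝ => 1 / 2 * Real.log (∑ i, ‖tv (P i) y‖ ^ 2))
      (Set.Icc 0 1) := by
    choose K hK' hK using fun i => F_bound (P i)
    set M : ℝ := 1 + ∑ i, K i ^ 2 with hM
    have hMs : 0 ≤ ∑ i, K i ^ 2 := Finset.sum_nonneg fun _ _ => sq_nonneg _
    refine Integrable.mono' ((F_integrable hi0).abs.add (integrable_const (Real.log M))) ?_ ?_
    · refine (Measurable.const_mul (Real.measurable_log.comp ?_) _).aestronglyMeasurable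
      exact (continuous_finset_sum _ fun i _ => (F_continuous_tv (P i)).norm.pow 2).measurable
    · filter_upwards [F_zero_null hi0] with t ht
      have p1 : 0 < ‖tv (P i0) t‖ := norm_pos_iff.2 ht
      have hs : ‖tv (P i0) t‖ ^ 2 ≤ ∑ i, ‖tv (P i) t‖ ^ 2 :=
        Finset.single_le_sum (f := fun i => ‖tv (P i) t‖ ^ 2) (fun _ _ => sq_nonneg _)
          (Finset.mem_univ i0)
      have q0 : 0 < ‖tv (P i0) t‖ ^ 2 := pow_pos p1 2
      have q1 : Real.log (‖tv (P i0) t‖ ^ 2) ≤ Real.log (∑ i, ‖tv (P i) t‖ ^ 2) :=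
        Real.log_le_log q0 hs
      have q2 : Real.log (∑ i, ‖tv (P i) t‖ ^ 2) ≤ Real.log M := by
        refine Real.log_le_log (by linarith) ?_
        have e2 : ∑ i, ‖tv (P i) t‖ ^ 2 ≤ ∑ i, K i ^ 2 :=
          Finset.sum_le_sum fun i _ => pow_le_pow_left₀ (norm_nonneg _) (hK i t) 2
        linarith
      have q3 : Real.log (‖tv (P i0) t‖ ^ 2) = 2 * Real.log ‖tv (P i0) t‖ := by
        rw [Real.log_pow]; norm_num
      have q4 : 0 ≤ Real.log M := Real.log_nonneg (by linarith)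
      have h8 := neg_abs_le (Real.log ‖tv (P i0) t‖)
      have h9 := abs_nonneg (Real.log ‖tv (P i0) t‖)
      rw [Real.norm_eq_abs, abs_le]
      simp only [Pi.add_apply]
      constructor <;> linarith
  have h1 : ∫ y in Set.Icc (0 : Fin k → ℝ) 1, hgt F P y ≤
      ∫ y in Set.Icc (0 : Fin k → ℝ) 1, (1 / 2 * Real.log (∑ i, ‖tv (P i) y‖ ^ 2) +
        1 / 2 * Real.log (1 + N ^ 2)) := by
    refine integral_mono_ae (hgt_integrable hF _) (hPi.add (integrable_const _)) ?_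
    filter_upwards [F_zero_null hi0] with y hy
    have p1 : 0 < ‖tv (P i0) y‖ := norm_pos_iff.2 hy
    have hs : ‖tv (P i0) y‖ ^ 2 ≤ ∑ i, ‖tv (P i) y‖ ^ 2 :=
      Finset.single_le_sum (f := fun i => ‖tv (P i) y‖ ^ 2) (fun _ _ => sq_nonneg _)
        (Finset.mem_univ i0)
    have q0 : 0 < ‖tv (P i0) y‖ ^ 2 := pow_pos p1 2
    have q1 : 0 < ∑ i, ‖tv (P i) y‖ ^ 2 := by linarith
    show hgt F P y ≤ _
    unfold hgt
    have h7 : Real.log (‖tv F y‖ ^ 2 + ∑ i, ‖tv (P i) y‖ ^ 2) ≤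
        Real.log ((∑ i, ‖tv (P i) y‖ ^ 2) * (1 + N ^ 2)) := by
      refine Real.log_le_log (add_pos_of_nonneg_of_pos (sq_nonneg _) q1) ?_
      have := hbound y
      linarith
    rw [Real.log_mul q1.ne' (by nlinarith [sq_nonneg N])] at h7
    linarith
  refine h1.trans (le_of_eq ?_)
  have h2 : ∫ y in Set.Icc (0 : Fin k → ℝ) 1, (1 / 2 * Real.log (∑ i, ‖tv (P i) y‖ ^ 2) +
        1 / 2 * Real.log (1 + N ^ 2)) =
      (∫ y in Set.Icc (0 : Fin k → ℝ) 1, 1 / 2 * Real.log (∑ i, ‖tv (P i) y‖ ^ 2)) +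
        ∫ _ in Set.Icc (0 : Fin k → ℝ) 1, 1 / 2 * Real.log (1 + N ^ 2) :=
    integral_add hPi (integrable_const _)
  rw [h2, setIntegral_const, J.vol_cube, one_smul]

/-- **Polynomials dominating a sum of squares.** -/
theorem sos_mem {F : MvPolynomial (Fin k) ℤ} (hF : F ≠ 0) (P : Fin r → MvPolynomial (Fin k) ℤ)
    (c : ℝ) (h : ∀ t, ∑ i, ‖tv (P i) t‖ ^ 2 ≤ c * ‖tv F t‖)
    (hP : ∀ Q, (∀ i, Q ∣ P i) → mM Q = 1) :
    mM F ∈ LL (Real.log (mM F) + 1 / 2 * Real.log (1 + c ^ 2)) := by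
  refine dom_mem hF (fun l : Fin (r * r) => P (finProdFinEquiv.symm l).1 *
    recip (P (finProdFinEquiv.symm l).2)) (c ^ 2) (sq_nonneg c) ?_ ?_
  · intro t
    have h1 : ∑ l : Fin (r * r), ‖tv (P (finProdFinEquiv.symm l).1 *
        recip (P (finProdFinEquiv.symm l).2)) t‖ ^ 2 = (∑ i, ‖tv (P i) t‖ ^ 2) ^ 2 := by
      rw [Equiv.sum_comp finProdFinEquiv.symm
        (fun q : Fin r × Fin r => ‖tv (P q.1 * recip (P q.2)) t‖ ^ 2), Fintype.sum_prod_type,
        sq (∑ i, ‖tv (P i) t‖ ^ 2), Finset.sum_mul_sum]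
      refine Finset.sum_congr rfl fun i _ => Finset.sum_congr rfl fun j _ => ?_
      rw [J.norm_tv_mul, J.norm_tv_recip, mul_pow]
    rw [h1]
    have h2 : 0 ≤ ∑ i, ‖tv (P i) t‖ ^ 2 := Finset.sum_nonneg fun _ _ => sq_nonneg _
    calc (∑ i, ‖tv (P i) t‖ ^ 2) ^ 2 ≤ (c * ‖tv F t‖) ^ 2 := pow_le_pow_left₀ h2 (h t) 2
      _ = c ^ 2 * ‖tv F t‖ ^ 2 := by ring
  · intro Q hQ _ hd
    have hd' : ∀ i j, Q ∣ P i * recip (P j) := by
      intro i j
      have := hd (finProdFinEquiv (i, j))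
      simpa using this
    by_cases hall : ∀ i, Q ∣ P i
    · exact hP Q hall
    · push Not at hall
      obtain ⟨i, hi⟩ := hall
      have h1 : ∀ j, Q ∣ recip (P j) := fun j => (hQ.prime.dvd_or_dvd (hd' i j)).resolve_left hi
      have h2 : ∀ j, recip Q ∣ P j := by
        intro j
        by_cases hj : P j = 0
        · rw [hj]; exact dvd_zero _
        · exact (J.recip_dvd (J.recip_ne_zero hj) (h1 j)).trans (J.recip_recip_dvd (P j))
      rw [← J.mM_recip]
      exact hP _ h2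

end

end Pool.Agent.X16.BC
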