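import Pool.Agent.X16.BC.A

/-!
# Combinations of a polynomial and its reciprocal; polynomials in one variable
-/

set_option autoImplicit false

namespace Pool.Agent.X16.BC

open MeasureTheory Filter
open Pool.Agent.H261R2.CM

noncomputable section

attribute [local irreducible] tv

variable {k r : ℕ}

theorem P_ne_zero {P : MvPolynomial (Fin k) ℤ}
    (hP : ∀ Q, Q ∣ P → Q ∣ recip P → mM Q = 1) : P ≠ 0 := by
  rintro rfl
  have h1 := hP (MvPolynomial.C 2) (dvd_zero _) (by
    have : recip (0 : MvPolynomial (Fin k) ℤ) = 0 := by simp [recip]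
    rw [this]; exact dvd_zero _)
  rw [J.mM_C (by norm_num)] at h1
  norm_num at h1

/-- **Combinations of a polynomial and its reciprocal polynomial.** -/
theorem recip_comb_mem (P A C : MvPolynomial (Fin k) ℤ)
    (hP : ∀ Q, Q ∣ P → Q ∣ recip P → mM Q = 1) (N : ℝ)
    (hA : ∀ t, ‖tv A t‖ + ‖tv C t‖ ≤ N) (hF : A * P + C * recip P ≠ 0) :
    mM (A * P + C * recip P) ∈
      LL (Real.log (mM P) + 1 / 2 * Real.log 2 + 1 / 2 * Real.log (1 + N ^ 2)) := by
  have hP0 := P_ne_zero hP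
  have h1 := lin_mem (![P, recip P]) (![A, C])
    (fun Q hQ => hP Q (by simpa using hQ 0) (by simpa using hQ 1)) N
    (fun t => by simpa [Fin.sum_univ_two] using hA t) (by simpa [Fin.sum_univ_two] using hF)
  have h2 : ∑ i : Fin 2, (![A, C] : Fin 2 → MvPolynomial (Fin k) ℤ) i *
      (![P, recip P] : Fin 2 → MvPolynomial (Fin k) ℤ) i = A * P + C * recip P := by
    simp [Fin.sum_univ_two]
  rw [h2] at h1
  refine LL_mono (le_of_eq ?_) h1
  congr 1
  have h3 : ∫ y in Set.Icc (0 : Fin k → ℝ) 1, 1 / 2 *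
      Real.log (∑ i, ‖tv ((![P, recip P] : Fin 2 → MvPolynomial (Fin k) ℤ) i) y‖ ^ 2) =
      ∫ y in Set.Icc (0 : Fin k → ℝ) 1, (Real.log ‖tv P y‖ + 1 / 2 * Real.log 2) := by
    refine integral_congr_ae ?_
    filter_upwards [F_zero_null hP0] with y hy
    have p1 : 0 < ‖tv P y‖ := norm_pos_iff.2 hy
    have h4 : ∑ i, ‖tv ((![P, recip P] : Fin 2 → MvPolynomial (Fin k) ℤ) i) y‖ ^ 2 =
        2 * ‖tv P y‖ ^ 2 := by
      rw [Fin.sum_univ_two]
      simp only [Matrix.cons_val_zero, Matrix.cons_val_one]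
      rw [J.norm_tv_recip]
      ring
    show 1 / 2 * Real.log (∑ i, ‖tv ((![P, recip P] : Fin 2 → MvPolynomial (Fin k) ℤ) i) y‖ ^ 2) =
      Real.log ‖tv P y‖ + 1 / 2 * Real.log 2
    rw [h4, Real.log_mul two_ne_zero (pow_pos p1 2).ne', Real.log_pow]
    push_cast
    ring
  rw [h3]
  have h5 : ∫ y in Set.Icc (0 : Fin k → ℝ) 1, (Real.log ‖tv P y‖ + 1 / 2 * Real.log 2) =
      (∫ y in Set.Icc (0 : Fin k → ℝ) 1, Real.log ‖tv P y‖) +
        ∫ _ in Set.Icc (0 : Fin k → ℝ) 1, 1 / 2 * Real.log 2 :=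
    integral_add (F_integrable hP0) (integrable_const _)
  rw [h5, setIntegral_const, J.vol_cube, one_smul]
  unfold mM
  rw [Real.log_exp]

theorem norm_add_le_len (A C : MvPolynomial (Fin k) ℤ) (N : ℝ)
    (h : (((∑ s ∈ A.support, |A.coeff s|) + ∑ s ∈ C.support, |C.coeff s| : ℤ) : ℝ) ≤ N)
    (t : Fin k → ℝ) : ‖tv A t‖ + ‖tv C t‖ ≤ N := by
  have h1 := norm_tv_le A t
  have h2 := norm_tv_le C t
  push_cast at h h1 h2
  linarith

/-! ### one variable -/

/-- a polynomial in one variable as an element of `ℤ[X_0]` -/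
def up : Polynomial ℤ →ₐ[ℤ] MvPolynomial (Fin 1) ℤ := Polynomial.aeval (MvPolynomial.X 0)

/-- back -/
def dn : MvPolynomial (Fin 1) ℤ →ₐ[ℤ] Polynomial ℤ := MvPolynomial.aeval fun _ => Polynomial.X

theorem up_dn (Q : MvPolynomial (Fin 1) ℤ) : up (dn Q) = Q := by
  have h : up.comp dn = AlgHom.id ℤ _ := by
    apply MvPolynomial.algHom_ext
    intro i
    have : i = 0 := Subsingleton.elim _ _
    subst this
    simp [up, dn]
  exact DFunLike.congr_fun h Q

theorem dn_up (p : Polynomial ℤ) : dn (up p) = p := by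
  have h : dn.comp up = AlgHom.id ℤ _ := by
    apply Polynomial.algHom_ext
    simp [up, dn]
  exact DFunLike.congr_fun h p

theorem tv_up (p : Polynomial ℤ) (t : Fin 1 → ℝ) : tv (up p) t = ev1 p (t 0) := by
  rw [J.tv_eq]
  have h : ((J.tvh t).comp (up : Polynomial ℤ →+* MvPolynomial (Fin 1) ℤ)) =
      (Polynomial.evalRingHom (ez (t 0))).comp (Polynomial.mapRingHom (Int.castRingHom ℂ)) := by
    apply Polynomial.ringHom_ext
    · intro a
      simp
    · simp only [RingHom.comp_apply, RingHom.coe_coe, up, Polynomial.aeval_X,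
        Polynomial.coe_mapRingHom, Polynomial.map_X, Polynomial.coe_evalRingHom,
        Polynomial.eval_X]
      rw [← J.tv_eq, J.tv_X]
      rfl
  exact DFunLike.congr_fun h p

theorem int_up (f : ℝ → ℝ) :
    ∫ t in Set.Icc (0 : Fin 1 → ℝ) 1, f (t 0) = ∫ s in (0 : ℝ)..1, f s := by
  have h := J.cube_split (k := 0) f (fun _ => 1)
  simp only [mul_one] at h
  rw [h, setIntegral_const, J.vol_cube, one_smul, mul_one,
    intervalIntegral.integral_of_le zero_le_one, integral_Icc_eq_integral_Ioc]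

theorem mM_up (p : Polynomial ℤ) (hp : p ≠ 0) : mM (up p) = m1 p := by
  unfold mM
  simp only [tv_up]
  rw [int_up (fun s => Real.log ‖ev1 p s‖), intervalIntegral.integral_of_le zero_le_one,
    ← integral_Icc_eq_integral_Ioc]
  have h := K8.log_mahler (toC p)
  have h2 : 0 < m1 p := lt_of_lt_of_le one_pos (F_one_le_m1 hp)
  have h3 : Real.log (m1 p) = ∫ w in Set.Icc (0 : ℝ) 1, Real.log ‖ev1 p w‖ := h
  rw [← h3, Real.exp_log h2]

theorem up_ne_zero {p : Polynomial ℤ} (hp : p ≠ 0) : up p ≠ 0 := by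
  intro h
  apply hp
  rw [← dn_up p, h, map_zero]

end

end Pool.Agent.X16.BC
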