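import Pool.Agent.X16.BC.A

/-!
# Determinants of incidence matrices of periodic graphs
-/

set_option autoImplicit false

namespace Pool.Agent.X16.BC

open MeasureTheory
open Pool.Agent.H261R2.CM

noncomputable section

attribute [local irreducible] tv

variable {k : ℕ}

/-! ### binomials -/

theorem mahler_binom (c d : ℂ) (hc : ‖c‖ = 1) (hd : ‖d‖ = 1) (n : ℕ) (hn : n ≠ 0) :
    (Polynomial.C d * Polynomial.X ^ n - Polynomial.C c : Polynomial ℂ).mahlerMeasure = 1 := by
  have hd0 : d ≠ 0 := by
    rintro rfl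
    rw [norm_zero] at hd
    exact zero_ne_one hd
  set Q : Polynomial ℂ := Polynomial.C d * Polynomial.X ^ n - Polynomial.C c with hQ
  have hdeg : Q.natDegree = n := by
    rw [hQ, Polynomial.natDegree_sub_C, Polynomial.natDegree_C_mul_X_pow n d hd0]
  have hlead : Q.leadingCoeff = d := by
    rw [Polynomial.leadingCoeff, hdeg, hQ, Polynomial.coeff_sub, Polynomial.coeff_C_mul_X_pow,
      if_pos rfl, Polynomial.coeff_C, if_neg hn, sub_zero]
  have hQ0 : Q ≠ 0 := by
    intro h
    rw [h, Polynomial.leadingCoeff_zero] at hlead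
    exact hd0 hlead.symm
  have h2 : (Q.roots.map fun a => max 1 ‖a‖) = Q.roots.map fun _ => (1 : ℝ) := by
    refine Multiset.map_congr rfl fun z hz => ?_
    have h3 : Q.eval z = 0 := (Polynomial.mem_roots hQ0).mp hz
    rw [hQ] at h3
    simp only [Polynomial.eval_sub, Polynomial.eval_mul, Polynomial.eval_C, Polynomial.eval_pow,
      Polynomial.eval_X] at h3
    have h4 : d * z ^ n = c := sub_eq_zero.mp h3
    have h5 : ‖z‖ ^ n = 1 := by
      have := congrArg norm h4
      rw [norm_mul, norm_pow, hc, hd, one_mul] at this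
      exact this
    have h6 : ‖z‖ = 1 := (pow_eq_one_iff_of_nonneg (norm_nonneg z) hn).mp h5
    rw [h6, max_self]
  rw [Polynomial.mahlerMeasure_eq_leadingCoeff_mul_prod_roots, h2, hlead, hd]
  simp

theorem mahler_binom2 (c d : ℂ) (hc : ‖c‖ = 1) (hd : ‖d‖ = 1) (a b : ℕ) (h : a < b) :
    (Polynomial.C c * Polynomial.X ^ a - Polynomial.C d * Polynomial.X ^ b :
      Polynomial ℂ).mahlerMeasure = 1 := by
  have h1 : (Polynomial.C c * Polynomial.X ^ a - Polynomial.C d * Polynomial.X ^ b :
      Polynomial ℂ) = Polynomial.C (-1) * (Polynomial.X ^ a *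
        (Polynomial.C d * Polynomial.X ^ (b - a) - Polynomial.C c)) := by
    have h2 : (Polynomial.X : Polynomial ℂ) ^ b = Polynomial.X ^ a * Polynomial.X ^ (b - a) := by
      rw [← pow_add, Nat.add_sub_cancel' h.le]
    rw [h2]
    simp only [Polynomial.C_neg, Polynomial.C_1]
    ring
  rw [h1, Polynomial.mahlerMeasure_mul, Polynomial.mahlerMeasure_mul,
    mahler_binom c d hc hd (b - a) (by omega)]
  have h3 : ∀ a : ℕ, (Polynomial.X ^ a : Polynomial ℂ).mahlerMeasure = 1 := by
    intro a
    induction a with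
    | zero => rw [pow_zero, Polynomial.mahlerMeasure_one]
    | succ a ih =>
      have h4 : (Polynomial.X : Polynomial ℂ).mahlerMeasure = 1 := by
        have h5 := Polynomial.mahlerMeasure_X_sub_C (0 : ℂ)
        simpa using h5
      rw [pow_succ, Polynomial.mahlerMeasure_mul, ih, h4, one_mul]
  rw [h3, Polynomial.mahlerMeasure_const]
  simp

theorem int_binom (c d : ℂ) (hc : ‖c‖ = 1) (hd : ‖d‖ = 1) (a b : ℕ) (h : a ≠ b) :
    ∫ w in Set.Icc (0 : ℝ) 1, Real.log ‖c * ez w ^ a - d * ez w ^ b‖ = 0 := by
  have key : ∀ (c d : ℂ), ‖c‖ = 1 → ‖d‖ = 1 → ∀ a b : ℕ, a < b →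
      ∫ w in Set.Icc (0 : ℝ) 1, Real.log ‖c * ez w ^ a - d * ez w ^ b‖ = 0 := by
    intro c d hc hd a b h
    have h1 := K8.log_mahler (Polynomial.C c * Polynomial.X ^ a -
      Polynomial.C d * Polynomial.X ^ b)
    rw [mahler_binom2 c d hc hd a b h, Real.log_one] at h1
    simp only [Polynomial.eval_sub, Polynomial.eval_mul, Polynomial.eval_C, Polynomial.eval_pow,
      Polynomial.eval_X] at h1
    exact h1.symm
  rcases lt_or_gt_of_ne h with h1 | h1
  · exact key c d hc hd a b h1
  · have h2 := key d c hd hc b a h1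
    refine (integral_congr_ae (Filter.Eventually.of_forall fun w => ?_)).trans h2
    show Real.log ‖c * ez w ^ a - d * ez w ^ b‖ = Real.log ‖d * ez w ^ b - c * ez w ^ a‖
    rw [norm_sub_rev]

theorem tv_mono_update (p : Fin k →₀ ℕ) (x : Fin k → ℝ) (i : Fin k) (w : ℝ) :
    tv (MvPolynomial.monomial p 1) (Function.update x i w) =
      (∏ l ∈ Finset.univ.erase i, J.zz x l ^ p l) * ez w ^ p i := by
  rw [J.tv_monomial, Int.cast_one, one_mul, ← Finset.prod_erase_mul _ _ (Finset.mem_univ i)]
  congr 1
  · refine Finset.prod_congr rfl fun l hl => ?_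
    have : l ≠ i := Finset.ne_of_mem_erase hl
    unfold J.zz
    rw [Function.update_of_ne this]
  · unfold J.zz ez
    rw [Function.update_self]

theorem norm_prod_zz (x : Fin k → ℝ) (p : Fin k →₀ ℕ) (s : Finset (Fin k)) :
    ‖∏ l ∈ s, J.zz x l ^ p l‖ = 1 := by
  rw [norm_prod]
  refine Finset.prod_eq_one fun l _ => ?_
  rw [norm_pow, J.norm_zz, one_pow]

/-- a difference of two monomials is zero or has measure one -/
theorem mM_mono_sub (p q : Fin k →₀ ℕ) :
    MvPolynomial.monomial p 1 - MvPolynomial.monomial q (1 : ℤ) = 0 ∨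
      mM (MvPolynomial.monomial p 1 - MvPolynomial.monomial q (1 : ℤ)) = 1 := by
  by_cases h : p = q
  · left
    rw [h, sub_self]
  right
  set F : MvPolynomial (Fin k) ℤ := MvPolynomial.monomial p 1 - MvPolynomial.monomial q 1 with hF
  have hF0 : F ≠ 0 := by
    rw [hF, sub_ne_zero]
    intro h1
    exact h ((MvPolynomial.monomial_left_injective one_ne_zero) h1)
  obtain ⟨i, hi⟩ : ∃ i, p i ≠ q i := by
    by_contra hc
    push Not at hc
    exact h (Finsupp.ext hc)
  obtain ⟨k', rfl⟩ : ∃ k', k = k' + 1 := ⟨k - 1, by have := i.2; omega⟩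
  obtain ⟨_, h2⟩ := K8.cube_slice i (fun x => Real.log ‖tv F x‖) (F_integrable hF0)
  have h3 : ∀ x : Fin (k' + 1) → ℝ, ∫ w in Set.Icc (0 : ℝ) 1,
      Real.log ‖tv F (Function.update x i w)‖ = 0 := by
    intro x
    have h4 : ∀ w, tv F (Function.update x i w) =
        (∏ l ∈ Finset.univ.erase i, J.zz x l ^ p l) * ez w ^ p i -
          (∏ l ∈ Finset.univ.erase i, J.zz x l ^ q l) * ez w ^ q i := by
      intro w
      rw [hF, J.tv_eq, map_sub, ← J.tv_eq, ← J.tv_eq, tv_mono_update, tv_mono_update]
    simp only [h4]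
    exact int_binom _ _ (norm_prod_zz x p _) (norm_prod_zz x q _) _ _ hi
  simp only [h3, integral_zero] at h2
  unfold mM
  rw [← h2, Real.exp_zero]

theorem mM_mono (p : Fin k →₀ ℕ) : mM (MvPolynomial.monomial p (1 : ℤ)) = 1 := by
  refine J.mM_of_norm_const one_pos fun t => ?_
  rw [J.tv_monomial, Int.cast_one, one_mul]
  exact norm_prod_zz t p _

/-! ### incidence matrices -/

/-- zero or of measure one -/
def Small (D : MvPolynomial (Fin k) ℤ) : Prop := D = 0 ∨ mM D = 1

theorem Small.mul {A B : MvPolynomial (Fin k) ℤ} (hA : Small A) (hB : Small B) :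
    Small (A * B) := by
  by_cases h1 : A = 0
  · left; rw [h1, zero_mul]
  by_cases h2 : B = 0
  · left; rw [h2, mul_zero]
  right
  rw [mM_mul A B h1 h2, hA.resolve_left h1, hB.resolve_left h2, one_mul]

theorem small_mono (p : Fin k →₀ ℕ) : Small (MvPolynomial.monomial p (1 : ℤ)) :=
  Or.inr (mM_mono p)

theorem small_unit {u : MvPolynomial (Fin k) ℤ} (hu : IsUnit u) : Small u := Or.inr (mM_unit hu)

theorem small_neg_one_pow (n : ℕ) : Small ((-1 : MvPolynomial (Fin k) ℤ) ^ n) :=
  small_unit (IsUnit.pow n isUnit_one.neg)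

/-- the vector `z ^ e` at the vertex `x` -/
def pt {n : ℕ} (x : Option (Fin n)) (e : Fin k →₀ ℕ) : Fin n → MvPolynomial (Fin k) ℤ :=
  fun i => if x = some i then MvPolynomial.monomial e 1 else 0

theorem pt_none {n : ℕ} (e : Fin k →₀ ℕ) (i : Fin n) : pt none e i = 0 := by
  unfold pt; rw [if_neg (by simp)]

theorem pt_self {n : ℕ} (e : Fin k →₀ ℕ) (i : Fin n) :
    pt (some i) e i = MvPolynomial.monomial e 1 := by
  unfold pt; rw [if_pos rfl]

theorem pt_ne {n : ℕ} (e : Fin k →₀ ℕ) {i j : Fin n} (h : i ≠ j) : pt (some i) e j = 0 := by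
  unfold pt; rw [if_neg]; simpa using h

theorem drop_pt {n : ℕ} (a : Fin (n + 1)) (x : Option (Fin (n + 1))) (e : Fin k →₀ ℕ) :
    ∃ x' : Option (Fin n), ∀ i : Fin n, pt x e (a.succAbove i) = pt x' e i := by
  rcases x with _ | v
  · exact ⟨none, fun i => by rw [pt_none, pt_none]⟩
  · by_cases h : v = a
    · refine ⟨none, fun i => ?_⟩
      rw [pt_none, h, pt_ne e (Fin.succAbove_ne a i).symm]
    · obtain ⟨v', rfl⟩ := Fin.exists_succAbove_eq h
      refine ⟨some v', fun i => ?_⟩
      by_cases hi : v' = i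
      · rw [hi, pt_self, pt_self]
      · rw [pt_ne e hi, pt_ne e fun h' => hi (Fin.succAbove_right_injective h')]

theorem merge_pt {n : ℕ} (a : Fin (n + 1)) (b' : Fin n) (p q : Fin k →₀ ℕ)
    (x : Option (Fin (n + 1))) (e : Fin k →₀ ℕ) :
    ∃ (x' : Option (Fin n)) (e' : Fin k →₀ ℕ), ∀ i : Fin n,
      (if i = b' then MvPolynomial.monomial p 1 * pt x e (a.succAbove b') +
        MvPolynomial.monomial q 1 * pt x e a else pt x e (a.succAbove i)) = pt x' e' i := by
  rcases x with _ | v
  · refine ⟨none, 0, fun i => ?_⟩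
    simp only [pt_none, mul_zero, add_zero, ite_self]
  by_cases h : v = a
  · subst h
    refine ⟨some b', q + e, fun i => ?_⟩
    by_cases hi : i = b'
    · rw [if_pos hi, hi, pt_ne e (Fin.succAbove_ne v b').symm, pt_self, pt_self, mul_zero,
        zero_add, MvPolynomial.monomial_mul, one_mul]
    · rw [if_neg hi, pt_ne e (Fin.succAbove_ne v i).symm, pt_ne _ (fun h' => hi h'.symm)]
  obtain ⟨v', rfl⟩ := Fin.exists_succAbove_eq h
  have hva : a.succAbove v' ≠ a := Fin.succAbove_ne a v'
  by_cases hv : v' = b'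
  · subst hv
    refine ⟨some v', p + e, fun i => ?_⟩
    by_cases hi : i = v'
    · rw [if_pos hi, hi, pt_self, pt_ne e hva, pt_self, mul_zero, add_zero,
        MvPolynomial.monomial_mul, one_mul]
    · rw [if_neg hi, pt_ne e fun h' => hi (Fin.succAbove_right_injective h').symm,
        pt_ne _ fun h' => hi h'.symm]
  · refine ⟨some v', e, fun i => ?_⟩
    by_cases hi : i = b'
    · rw [if_pos hi, hi, pt_ne e fun h' => hv (Fin.succAbove_right_injective h'),
        pt_ne e hva, pt_ne e hv, mul_zero, mul_zero, add_zero]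
    · rw [if_neg hi]
      by_cases hi2 : v' = i
      · rw [hi2, pt_self, pt_self]
      · rw [pt_ne e hi2, pt_ne e fun h' => hi2 (Fin.succAbove_right_injective h')]

theorem det_expand {n : ℕ} (M : Matrix (Fin (n + 1)) (Fin (n + 1)) (MvPolynomial (Fin k) ℤ))
    (a : Fin (n + 1)) (h : ∀ i, i ≠ a → M i 0 = 0) :
    M.det = (-1) ^ (a : ℕ) * M a 0 * (M.submatrix a.succAbove Fin.succ).det := by
  rw [Matrix.det_succ_column_zero, Finset.sum_eq_single a]
  · intro i _ hi
    rw [h i hi]
    ring
  · intro ha
    exact absurd (Finset.mem_univ a) ha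

theorem graph_det : ∀ (n : ℕ) (M : Matrix (Fin n) (Fin n) (MvPolynomial (Fin k) ℤ)),
    (∀ c, ∃ (x y : Option (Fin n)) (p q : Fin k →₀ ℕ), ∀ i, M i c = pt x p i - pt y q i) →
    Small M.det := by
  intro n
  induction n with
  | zero =>
    intro M _
    rw [Matrix.det_fin_zero]
    exact small_unit isUnit_one
  | succ n ih =>
    intro M hM
    obtain ⟨x, y, p, q, h0⟩ := hM 0
    -- columns of a submatrix obtained by deleting a row
    have hdrop : ∀ a : Fin (n + 1), Small (M.submatrix a.succAbove Fin.succ).det := by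
      intro a
      refine ih _ fun c => ?_
      obtain ⟨x1, y1, p1, q1, h1⟩ := hM c.succ
      obtain ⟨x2, hx2⟩ := drop_pt a x1 p1
      obtain ⟨y2, hy2⟩ := drop_pt a y1 q1
      refine ⟨x2, y2, p1, q1, fun i => ?_⟩
      rw [Matrix.submatrix_apply, h1, hx2, hy2]
    rcases x with _ | a
    · rcases y with _ | b
      · left
        refine Matrix.det_eq_zero_of_column_eq_zero 0 fun i => ?_
        rw [h0, pt_none, pt_none, sub_zero]
      · rw [det_expand M b fun i hi => by rw [h0, pt_none, pt_ne q hi.symm, sub_zero], h0,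
          pt_none, pt_self, zero_sub]
        refine ((small_neg_one_pow _).mul ?_).mul (hdrop b)
        rw [neg_eq_neg_one_mul]
        exact (small_unit isUnit_one.neg).mul (small_mono q)
    · rcases y with _ | b
      · rw [det_expand M a fun i hi => by rw [h0, pt_none, pt_ne p hi.symm, sub_zero], h0,
          pt_none, pt_self, sub_zero]
        exact ((small_neg_one_pow _).mul (small_mono p)).mul (hdrop a)
      · by_cases hab : a = b
        · subst hab
          rw [det_expand M a fun i hi => by
            rw [h0, pt_ne p hi.symm, pt_ne q hi.symm, sub_zero], h0, pt_self, pt_self]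
          exact ((small_neg_one_pow _).mul (mM_mono_sub p q)).mul (hdrop a)
        · -- elimination
          set zp : MvPolynomial (Fin k) ℤ := MvPolynomial.monomial p 1 with hzp
          set zq : MvPolynomial (Fin k) ℤ := MvPolynomial.monomial q 1 with hzq
          have hzp0 : zp ≠ 0 := by
            rw [hzp, Ne, MvPolynomial.monomial_eq_zero]
            exact one_ne_zero
          set A1 := M.updateRow b (zp • M b) with hA1
          set A2 := A1.updateRow b (A1 b + zq • A1 a) with hA2
          have e1 : A1.det = zp * M.det := by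
            rw [hA1, Matrix.det_updateRow_smul, Matrix.updateRow_eq_self]
          have e2 : A2.det = A1.det := by
            rw [hA2]
            exact Matrix.det_updateRow_add_smul_self A1 (Ne.symm hab) zq
          have r1 : ∀ j, A2 b j = zp * M b j + zq * M a j := by
            intro j
            rw [hA2, Matrix.updateRow_self, hA1, Matrix.updateRow_self,
              Matrix.updateRow_ne hab]
            simp
          have r2 : ∀ i, i ≠ b → ∀ j, A2 i j = M i j := by
            intro i hi j
            rw [hA2, Matrix.updateRow_ne hi, hA1, Matrix.updateRow_ne hi]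
          have c0 : ∀ i, i ≠ a → A2 i 0 = 0 := by
            intro i hi
            by_cases hib : i = b
            · rw [hib, r1, h0, h0, pt_ne p hab, pt_self, pt_self, pt_ne q (Ne.symm hab)]
              ring
            · rw [r2 i hib, h0, pt_ne p hi.symm, pt_ne q (Ne.symm hib), sub_zero]
          have c1 : A2 a 0 = zp := by
            rw [r2 a hab, h0, pt_self, pt_ne q (Ne.symm hab), sub_zero]
          obtain ⟨b', hb'⟩ := Fin.exists_succAbove_eq (Ne.symm hab)
          have hsub : Small (A2.submatrix a.succAbove Fin.succ).det := by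
            refine ih _ fun c => ?_
            obtain ⟨x1, y1, p1, q1, h1⟩ := hM c.succ
            obtain ⟨x2, p2, hx2⟩ := merge_pt a b' p q x1 p1
            obtain ⟨y2, q2, hy2⟩ := merge_pt a b' p q y1 q1
            refine ⟨x2, y2, p2, q2, fun i => ?_⟩
            rw [Matrix.submatrix_apply, ← hx2, ← hy2]
            by_cases hi : i = b'
            · rw [if_pos hi, if_pos hi, hi, hb', r1, h1, h1]
              ring
            · rw [if_neg hi, if_neg hi, r2 _ ?_, h1]
              rw [← hb']
              exact fun h' => hi (Fin.succAbove_right_injective h')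
          have hdet : zp * M.det = zp * ((-1) ^ (a : ℕ) *
              (A2.submatrix a.succAbove Fin.succ).det) := by
            rw [← e1, ← e2, det_expand A2 a c0, c1]
            ring
          rw [mul_left_cancel₀ hzp0 hdet]
          exact (small_neg_one_pow _).mul hsub

end

end Pool.Agent.X16.BC
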