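import Mathlib

/-!
# Determinants of sums of rank one positive semidefinite matrices
-/

set_option autoImplicit false

namespace Pool.Agent.X16.BC

open Matrix
open scoped ComplexOrder

noncomputable section

variable {n m : ℕ}

theorem rank_one {A : Matrix (Fin n) (Fin n) ℂ} (hA : A.PosDef) (u : ℝ) (hu : 0 ≤ u)
    (v : Fin n → ℂ) :
    (A + (u : ℂ) • vecMulVec v (star v)).PosDef ∧
      A.det.re ≤ (A + (u : ℂ) • vecMulVec v (star v)).det.re := by
  have hu' : (0 : ℂ) ≤ (u : ℂ) := by exact_mod_cast hu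
  have h1 : ((u : ℂ) • vecMulVec v (star v)).PosSemidef :=
    (posSemidef_vecMulVec_self_star v).smul hu'
  refine ⟨hA.add_posSemidef h1, ?_⟩
  have hpos := hA.det_pos
  have hdet : IsUnit A.det := hpos.ne'.isUnit
  have h2 : (u : ℂ) • vecMulVec v (star v) =
      replicateCol Unit ((u : ℂ) • v) * replicateRow Unit (star v) := by
    rw [← vecMulVec_eq Unit]
    ext i j
    simp [vecMulVec_apply]
    ring
  have h3 : (1 + replicateRow Unit (star v) * A⁻¹ * replicateCol Unit ((u : ℂ) • v)).det =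
      1 + (u : ℂ) * (star v ⬝ᵥ (A⁻¹ *ᵥ v)) := by
    rw [det_unique]
    simp only [Matrix.add_apply, Matrix.one_apply_eq]
    congr 1
    rw [Matrix.mul_assoc, Matrix.mul_apply]
    simp only [replicateRow_apply, Matrix.mul_apply, replicateCol_apply, dotProduct, mulVec,
      Pi.smul_apply, smul_eq_mul]
    rw [Finset.mul_sum]
    refine Finset.sum_congr rfl fun i _ => ?_
    rw [Finset.mul_sum, Finset.mul_sum, Finset.mul_sum]
    refine Finset.sum_congr rfl fun j _ => ?_
    ring
  have h4 : 0 ≤ star v ⬝ᵥ (A⁻¹ *ᵥ v) := hA.inv.posSemidef.dotProduct_mulVec_nonneg v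
  rw [h2, det_add_replicateCol_mul_replicateRow hdet, h3]
  set z := star v ⬝ᵥ (A⁻¹ *ᵥ v) with hz
  obtain ⟨hp1, hp2⟩ := Complex.lt_def.1 hpos
  obtain ⟨hz1, hz2⟩ := Complex.le_def.1 h4
  simp only [Complex.zero_re, Complex.zero_im] at hp1 hp2 hz1 hz2
  rw [Complex.mul_re]
  simp only [Complex.add_re, Complex.one_re, Complex.mul_re, Complex.ofReal_re, Complex.ofReal_im,
    zero_mul, sub_zero]
  rw [← hp2, zero_mul, sub_zero]
  have : 0 ≤ A.det.re * (u * z.re) := mul_nonneg hp1.le (mul_nonneg hu hz1)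
  nlinarith

theorem sum_rank_one {A : Matrix (Fin n) (Fin n) ℂ} (hA : A.PosDef) (u : Fin m → ℝ)
    (hu : ∀ e, 0 ≤ u e) (b : Fin m → Fin n → ℂ) (T : Finset (Fin m)) :
    (A + ∑ e ∈ T, (u e : ℂ) • vecMulVec (b e) (star (b e))).PosDef ∧
      A.det.re ≤ (A + ∑ e ∈ T, (u e : ℂ) • vecMulVec (b e) (star (b e))).det.re := by
  classical
  induction T using Finset.induction_on with
  | empty => simpa using hA
  | insert e T he ih =>
    obtain ⟨h1, h2⟩ := ih
    obtain ⟨h3, h4⟩ := rank_one h1 (u e) (hu e) (b e)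
    have h5 : A + ∑ e ∈ insert e T, (u e : ℂ) • vecMulVec (b e) (star (b e)) =
        A + ∑ e ∈ T, (u e : ℂ) • vecMulVec (b e) (star (b e)) +
          (u e : ℂ) • vecMulVec (b e) (star (b e)) := by
      rw [Finset.sum_insert he]
      abel
    rw [h5]
    exact ⟨h3, h2.trans h4⟩

/-- the sum of the rank one matrices -/
def lapl (w : Fin m → ℕ) (b : Fin m → Fin n → ℂ) : Matrix (Fin n) (Fin n) ℂ :=
  ∑ e, (w e : ℂ) • vecMulVec (b e) (star (b e))

/-- a determinant of columns is dominated by the determinant of the sum -/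
theorem minor_le (w : Fin m → ℕ) (hw : ∀ e, 1 ≤ w e) (b : Fin m → Fin n → ℂ)
    (f : Fin n → Fin m) :
    ‖(Matrix.of fun i j => b (f j) i).det‖ ^ 2 ≤ ‖(lapl w b).det‖ := by
  classical
  set V : Matrix (Fin n) (Fin n) ℂ := Matrix.of fun i j => b (f j) i with hV
  by_cases h0 : V.det = 0
  · rw [h0, norm_zero]
    simp
  have hf : Function.Injective f := by
    intro i j hij
    by_contra hne
    apply h0
    refine Matrix.det_zero_of_column_eq hne fun l => ?_
    simp only [hV, Matrix.of_apply, hij]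
  have hVu : IsUnit V := (Matrix.isUnit_iff_isUnit_det V).2 (isUnit_iff_ne_zero.2 h0)
  have hA : (V * Vᴴ).PosDef :=
    Matrix.PosDef.mul_conjTranspose_self V (Matrix.vecMul_injective_iff_isUnit.2 hVu)
  have hVV : V * Vᴴ = ∑ j, vecMulVec (b (f j)) (star (b (f j))) := by
    ext i l
    rw [Matrix.mul_apply, Matrix.sum_apply]
    refine Finset.sum_congr rfl fun j _ => ?_
    rw [vecMulVec_apply, conjTranspose_apply]
    rfl
  set u : Fin m → ℝ := fun e => if e ∈ Finset.univ.image f then (w e : ℝ) - 1 else w e with hu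
  have hu0 : ∀ e, 0 ≤ u e := by
    intro e
    have h1 : (1 : ℝ) ≤ w e := by exact_mod_cast hw e
    simp only [hu]
    split_ifs <;> linarith
  have hsum : lapl w b = V * Vᴴ + ∑ e, (u e : ℂ) • vecMulVec (b e) (star (b e)) := by
    have h1 : ∑ j, vecMulVec (b (f j)) (star (b (f j))) =
        ∑ e, (if e ∈ Finset.univ.image f then (1 : ℂ) else 0) •
          vecMulVec (b e) (star (b e)) := by
      simp only [ite_smul, one_smul, zero_smul]
      rw [Finset.sum_ite_mem, Finset.univ_inter, Finset.sum_image fun i _ j _ h => hf h]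
    rw [hVV, h1, ← Finset.sum_add_distrib]
    unfold lapl
    refine Finset.sum_congr rfl fun e _ => ?_
    rw [← add_smul]
    congr 1
    simp only [hu]
    split_ifs
    · push_cast; ring
    · push_cast; ring
  obtain ⟨h1, h2⟩ := sum_rank_one hA u hu0 b Finset.univ
  rw [← hsum] at h1 h2
  have h3 : (V * Vᴴ).det.re = ‖V.det‖ ^ 2 := by
    rw [Matrix.det_mul, Matrix.det_conjTranspose]
    have : V.det * star V.det = ((‖V.det‖ ^ 2 : ℝ) : ℂ) := by
      rw [← starRingEnd_apply, Complex.mul_conj, Complex.normSq_eq_norm_sq]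
    rw [this, Complex.ofReal_re]
  rw [← h3]
  exact h2.trans (Complex.re_le_norm _)

end

end Pool.Agent.X16.BC
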