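import Pool.Agent.X16.BC.G1
import Pool.Agent.X16.BC.G2

/-!
# Determinants of Laplacians of periodic graphs
-/

set_option autoImplicit false

namespace Pool.Agent.X16.BC

open MeasureTheory
open Pool.Agent.H261R2.CM

noncomputable section

attribute [local irreducible] tv

variable {k n m : ℕ}

/-- character of the torus -/
def chi (p : Fin k →₀ ℕ) (t : Fin k → ℝ) : ℂ := ∏ l, J.zz t l ^ p l

theorem tv_mono (p : Fin k →₀ ℕ) (t : Fin k → ℝ) :
    tv (MvPolynomial.monomial p 1) t = chi p t := by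
  rw [J.tv_monomial, Int.cast_one, one_mul]; rfl

theorem norm_chi (p : Fin k →₀ ℕ) (t : Fin k → ℝ) : ‖chi p t‖ = 1 := norm_prod_zz t p _

theorem chi_add (p q : Fin k →₀ ℕ) (t : Fin k → ℝ) : chi (p + q) t = chi p t * chi q t := by
  unfold chi
  rw [← Finset.prod_mul_distrib]
  refine Finset.prod_congr rfl fun l _ => ?_
  rw [Finsupp.add_apply, pow_add]

theorem chi_mul_conj (p : Fin k →₀ ℕ) (t : Fin k → ℝ) :
    chi p t * (starRingEnd ℂ) (chi p t) = 1 := by
  rw [Complex.mul_conj, Complex.normSq_eq_norm_sq, norm_chi]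
  simp

theorem chi_sub {p S : Fin k →₀ ℕ} (h : p ≤ S) (t : Fin k → ℝ) :
    chi (S - p) t = chi S t * (starRingEnd ℂ) (chi p t) := by
  have h1 : chi S t = chi (S - p) t * chi p t := by
    rw [← chi_add, tsub_add_cancel_of_le h]
  rw [h1, mul_assoc, chi_mul_conj, mul_one]

theorem chi_exp (p : Fin k →₀ ℕ) (t : Fin k → ℝ) :
    chi p t = Complex.exp (2 * (Real.pi : ℂ) * Complex.I * ∑ l, (p l : ℂ) * ((t l : ℝ) : ℂ)) := by
  unfold chi J.zz
  rw [Finset.mul_sum, Complex.exp_sum]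
  refine Finset.prod_congr rfl fun l _ => ?_
  rw [← Complex.exp_nat_mul]
  congr 1
  ring

/-- negative part of a translation -/
def pp (s : Fin k → ℤ) : Fin k →₀ ℕ := Finsupp.equivFunOnFinite.symm fun j => (-(s j)).toNat

/-- positive part of a translation -/
def qq (s : Fin k → ℤ) : Fin k →₀ ℕ := Finsupp.equivFunOnFinite.symm fun j => (s j).toNat

/-- the phase of a translation -/
def phase (s : Fin k → ℤ) (t : Fin k → ℝ) : ℂ :=
  Complex.exp (2 * (Real.pi : ℂ) * Complex.I * ∑ j, ((s j : ℤ) : ℂ) * ((t j : ℝ) : ℂ))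

theorem chi_qq (s : Fin k → ℤ) (t : Fin k → ℝ) : chi (qq s) t = chi (pp s) t * phase s t := by
  rw [chi_exp, chi_exp]
  unfold phase
  rw [← Complex.exp_add, ← mul_add, ← Finset.sum_add_distrib]
  congr 2
  refine Finset.sum_congr rfl fun l _ => ?_
  rw [← add_mul]
  congr 1
  have h1 : ((qq s l : ℕ) : ℤ) = (pp s l : ℕ) + s l := by
    simp only [qq, pp, Finsupp.equivFunOnFinite_symm_apply_apply]
    omega
  have h2 : (((qq s l : ℕ) : ℤ) : ℂ) = (((pp s l : ℕ) + s l : ℤ) : ℂ) := by rw [h1]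
  push_cast at h2
  exact h2

/-- incidence vector at a torus point -/
def bvec (x y : Option (Fin n)) (s : Fin k → ℤ) (t : Fin k → ℝ) : Fin n → ℂ := fun i =>
  (if x = some i then 1 else 0) - (if y = some i then phase s t else 0)

/-- incidence vector -/
def beta (x y : Option (Fin n)) (s : Fin k → ℤ) : Fin n → MvPolynomial (Fin k) ℤ :=
  fun i => pt x (pp s) i - pt y (qq s) i

/-- reciprocal incidence vector -/
def beta' (S : Fin k →₀ ℕ) (x y : Option (Fin n)) (s : Fin k → ℤ) :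
    Fin n → MvPolynomial (Fin k) ℤ :=
  fun i => pt x (S - pp s) i - pt y (S - qq s) i

theorem tv_sub' (P Q : MvPolynomial (Fin k) ℤ) (t : Fin k → ℝ) :
    tv (P - Q) t = tv P t - tv Q t := by
  rw [J.tv_eq, map_sub, ← J.tv_eq, ← J.tv_eq]

theorem tv_zero' (t : Fin k → ℝ) : tv (0 : MvPolynomial (Fin k) ℤ) t = 0 := by
  rw [J.tv_eq, map_zero]

theorem tv_pt (x : Option (Fin n)) (e : Fin k →₀ ℕ) (i : Fin n) (t : Fin k → ℝ) :
    tv (pt x e i) t = if x = some i then chi e t else 0 := by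
  unfold pt
  split_ifs
  · rw [tv_mono]
  · rw [tv_zero']

theorem tv_beta (x y : Option (Fin n)) (s : Fin k → ℤ) (i : Fin n) (t : Fin k → ℝ) :
    tv (beta x y s i) t = chi (pp s) t * bvec x y s t i := by
  unfold beta bvec
  rw [tv_sub', tv_pt, tv_pt, chi_qq]
  split_ifs <;> ring

theorem tv_beta' {S : Fin k →₀ ℕ} (x y : Option (Fin n)) (s : Fin k → ℤ) (h1 : pp s ≤ S)
    (h2 : qq s ≤ S) (i : Fin n) (t : Fin k → ℝ) :
    tv (beta' S x y s i) t = chi S t * (starRingEnd ℂ) (tv (beta x y s i) t) := by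
  unfold beta beta'
  rw [tv_sub', tv_sub', tv_pt, tv_pt, tv_pt, tv_pt, chi_sub h1, chi_sub h2, map_sub]
  have h0 : (starRingEnd ℂ) 0 = 0 := map_zero _
  split_ifs
  · ring
  · rw [h0]; ring
  · rw [h0]; ring
  · rw [h0]; ring

/-- the Laplacian as a polynomial matrix -/
def lapP (S : Fin k →₀ ℕ) (x y : Fin m → Option (Fin n)) (s : Fin m → Fin k → ℤ)
    (w : Fin m → ℕ) : Matrix (Fin n) (Fin n) (MvPolynomial (Fin k) ℤ) :=
  Matrix.of fun i j => ∑ e, (MvPolynomial.C (w e : ℤ) * beta' S (x e) (y e) (s e) j) *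
    beta (x e) (y e) (s e) i

theorem tvh_lapP {S : Fin k →₀ ℕ} (x y : Fin m → Option (Fin n)) (s : Fin m → Fin k → ℤ)
    (w : Fin m → ℕ) (h1 : ∀ e, pp (s e) ≤ S) (h2 : ∀ e, qq (s e) ≤ S) (t : Fin k → ℝ) :
    (lapP S x y s w).map (J.tvh t) =
      chi S t • lapl w (fun e => bvec (x e) (y e) (s e) t) := by
  ext i j
  rw [Matrix.map_apply, Matrix.smul_apply]
  unfold lapP lapl
  rw [Matrix.of_apply, map_sum, Matrix.sum_apply, smul_eq_mul, Finset.mul_sum]
  refine Finset.sum_congr rfl fun e _ => ?_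
  rw [map_mul, map_mul, ← J.tv_eq, ← J.tv_eq, ← J.tv_eq, J.tv_C,
    tv_beta' _ _ _ (h1 e) (h2 e), tv_beta, tv_beta, Matrix.smul_apply, Matrix.vecMulVec_apply,
    map_mul, smul_eq_mul, Pi.star_apply, ← starRingEnd_apply]
  have h3 := chi_mul_conj (pp (s e)) t
  push_cast
  linear_combination (chi S t * (w e : ℂ) * bvec (x e) (y e) (s e) t i *
    (starRingEnd ℂ) (bvec (x e) (y e) (s e) t j)) * h3

theorem norm_det_lapP {S : Fin k →₀ ℕ} (x y : Fin m → Option (Fin n)) (s : Fin m → Fin k → ℤ)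
    (w : Fin m → ℕ) (h1 : ∀ e, pp (s e) ≤ S) (h2 : ∀ e, qq (s e) ≤ S) (t : Fin k → ℝ) :
    ‖tv (lapP S x y s w).det t‖ = ‖(lapl w (fun e => bvec (x e) (y e) (s e) t)).det‖ := by
  rw [J.tv_eq, RingHom.map_det, RingHom.mapMatrix_apply, tvh_lapP x y s w h1 h2,
    Matrix.det_smul, norm_mul, norm_pow, norm_chi, one_pow, one_mul]

theorem exists_minor (S : Fin k →₀ ℕ) (x y : Fin m → Option (Fin n)) (s : Fin m → Fin k → ℤ)
    (w : Fin m → ℕ) (h : (lapP S x y s w).det ≠ 0) :
    ∃ f : Fin n → Fin m,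
      (Matrix.of fun i j => beta (x (f j)) (y (f j)) (s (f j)) i :
        Matrix (Fin n) (Fin n) (MvPolynomial (Fin k) ℤ)).det ≠ 0 := by
  classical
  by_contra hc
  push Not at hc
  apply h
  rw [← Matrix.det_transpose]
  have h1 : (lapP S x y s w).transpose = fun j => ∑ e,
      (MvPolynomial.C (w e : ℤ) * beta' S (x e) (y e) (s e) j) • beta (x e) (y e) (s e) := by
    ext j i : 2
    rw [Matrix.transpose_apply, Finset.sum_apply]
    rfl
  have h2 : (lapP S x y s w).transpose.det = Matrix.detRowAlternating (fun j => ∑ e,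
      (MvPolynomial.C (w e : ℤ) * beta' S (x e) (y e) (s e) j) • beta (x e) (y e) (s e)) := by
    rw [← h1]
    rfl
  rw [h2]
  have h3 := (Matrix.detRowAlternating (n := Fin n)
    (R := MvPolynomial (Fin k) ℤ)).toMultilinearMap.map_sum
    (fun (j : Fin n) (e : Fin m) =>
      (MvPolynomial.C (w e : ℤ) * beta' S (x e) (y e) (s e) j) • beta (x e) (y e) (s e))
  refine h3.trans ?_
  refine Finset.sum_eq_zero fun f _ => ?_
  have h4 := (Matrix.detRowAlternating (n := Fin n)
    (R := MvPolynomial (Fin k) ℤ)).toMultilinearMap.map_smul_univ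
    (fun j : Fin n => (MvPolynomial.C (w (f j) : ℤ) * beta' S (x (f j)) (y (f j)) (s (f j)) j))
    (fun j : Fin n => beta (x (f j)) (y (f j)) (s (f j)))
  refine h4.trans ?_
  have h5 := hc f
  rw [← Matrix.det_transpose] at h5
  have h6 : (Matrix.detRowAlternating (n := Fin n)
    (R := MvPolynomial (Fin k) ℤ)).toMultilinearMap
      (fun j : Fin n => beta (x (f j)) (y (f j)) (s (f j))) = 0 := h5
  rw [h6, smul_zero]

/-- **Determinants of Laplacians.** -/
theorem graph_mem (x y : Fin m → Option (Fin n)) (s : Fin m → Fin k → ℤ)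
    (w : Fin m → ℕ) (hw : ∀ e, 1 ≤ w e)
    (h : ∃ t, (lapl w (fun e => bvec (x e) (y e) (s e) t)).det ≠ 0) (X : ℝ)
    (hX : X = Real.exp (∫ t in Set.Icc (0 : Fin k → ℝ) 1,
      Real.log ‖(lapl w (fun e => bvec (x e) (y e) (s e) t)).det‖)) :
    1 ≤ X ∧ X ∈ LL (Real.log X + 1 / 2 * Real.log 2) := by
  set S : Fin k →₀ ℕ := ∑ e, (pp (s e) + qq (s e)) with hS
  have h12 : ∀ e, pp (s e) + qq (s e) ≤ S := fun e =>
    Finset.single_le_sum (f := fun e => pp (s e) + qq (s e)) (fun _ _ => zero_le)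
      (Finset.mem_univ e)
  have h1 : ∀ e, pp (s e) ≤ S := fun e => le_self_add.trans (h12 e)
  have h2 : ∀ e, qq (s e) ≤ S := fun e => le_add_self.trans (h12 e)
  set F := (lapP S x y s w).det with hF
  have hn : ∀ t, ‖tv F t‖ = ‖(lapl w (fun e => bvec (x e) (y e) (s e) t)).det‖ :=
    fun t => norm_det_lapP x y s w h1 h2 t
  have hF0 : F ≠ 0 := by
    intro h0
    obtain ⟨t, ht⟩ := h
    apply ht
    rw [← norm_eq_zero, ← hn, h0, tv_zero', norm_zero]
  have hXF : X = mM F := by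
    rw [hX]
    unfold mM
    simp only [hn]
  rw [hXF]
  refine ⟨one_le_mM F hF0, ?_⟩
  obtain ⟨f, hf⟩ := exists_minor S x y s w hF0
  set E := (Matrix.of fun i j => beta (x (f j)) (y (f j)) (s (f j)) i :
        Matrix (Fin n) (Fin n) (MvPolynomial (Fin k) ℤ)).det with hE
  have hEM : mM E = 1 := by
    refine (graph_det n _ fun c => ?_).resolve_left hf
    exact ⟨x (f c), y (f c), pp (s (f c)), qq (s (f c)), fun i => rfl⟩
  have hmain := sos_mem hF0 (fun _ : Fin 1 => E) 1 (fun t => ?_) (fun Q hQ => ?_)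
  · refine LL_mono (le_of_eq ?_) hmain
    norm_num
  · rw [one_mul, hn]
    simp only [Finset.sum_const, Finset.card_univ, Fintype.card_fin, one_smul]
    have h3 : ‖tv E t‖ = ‖(Matrix.of fun i j =>
        bvec (x (f j)) (y (f j)) (s (f j)) t i).det‖ := by
      rw [J.tv_eq, hE, RingHom.map_det, RingHom.mapMatrix_apply]
      have h4 : (Matrix.of fun i j => beta (x (f j)) (y (f j)) (s (f j)) i :
          Matrix (Fin n) (Fin n) (MvPolynomial (Fin k) ℤ)).map (J.tvh t) =
          Matrix.of fun i j => chi (pp (s (f j))) t *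
            (Matrix.of fun i j => bvec (x (f j)) (y (f j)) (s (f j)) t i) i j := by
        ext i j
        rw [Matrix.map_apply, Matrix.of_apply, Matrix.of_apply, Matrix.of_apply, ← J.tv_eq,
          tv_beta]
      rw [h4, Matrix.det_mul_row, norm_mul, norm_prod,
        Finset.prod_eq_one fun j _ => norm_chi _ t, one_mul]
    rw [h3]
    exact minor_le w hw (fun e => bvec (x e) (y e) (s e) t) f
  · obtain ⟨R, hR⟩ := hQ 0
    have hR' : E = Q * R := hR
    have hQ0 : Q ≠ 0 := by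
      rintro rfl
      rw [zero_mul] at hR'
      exact hf hR'
    have hR0 : R ≠ 0 := by
      rintro rfl
      rw [mul_zero] at hR'
      exact hf hR'
    have h5 := mM_mul Q R hQ0 hR0
    rw [← hR', hEM] at h5
    have h6 := one_le_mM Q hQ0
    have h7 := one_le_mM R hR0
    nlinarith

end

end Pool.Agent.X16.BC
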